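import Pool.Agent.Helper73.AA.C1

/-!
# AA-C3: few trees have a vertex of large degree

Proof in words.  `card_big`: if `g` has a vertex `v` with at least `k` children then there are `v` and a `k`-subset `I` of `{x ≠ 0}` with
`g = v` on `I`; for given `v`, `I` the number of functions `g : Fin (m+1) → Fin (m+1)` with `g 0 = 0`, `g = v` on `I` is
`(m+1)^(m-k)`; there are `m+1` vertices `v` and `C(m,k)` sets `I`.
`lim_big`: `#FF = (m+1)^(m-1)` (`card_FF`), and with `k = ⌊δ (m+1)⌋ ≥ δ (m+1) - 1` the quotient is at most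
`(m+1) C(m,k) (m+1)^(m-k) / (m+1)^(m-1) = (m+1)² C(m,k) / (m+1)^k ≤ (m+1)² / k!`, which tends to `0`
(exponential beats polynomial).
-/

set_option autoImplicit false

namespace Pool.Agent.AA

open Finset Filter Topology

private theorem h55c3_card_fix (m : ℕ) (v : Fin (m + 1)) (I : Finset (Fin (m + 1)))
    (hI : I ⊆ univ.erase 0) :
    (Fintype.piFinset (fun x : Fin (m + 1) =>
      if x = 0 then ({0} : Finset (Fin (m + 1))) else if x ∈ I then {v} else univ)).card
      = (m + 1) ^ (m - I.card) := by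
  rw [Fintype.card_piFinset]
  have h1 : ∀ x : Fin (m + 1), (if x = 0 then ({0} : Finset (Fin (m + 1)))
      else if x ∈ I then {v} else univ).card = if x ∈ (univ.erase 0) \ I then (m + 1) else 1 := by
    intro x
    by_cases hx : x = 0
    · subst hx; simp
    · by_cases hxI : x ∈ I
      · simp [hx, hxI]
      · simp [hx, hxI]
  rw [Finset.prod_congr rfl (fun x _ => h1 x), Finset.prod_ite_mem, Finset.prod_const,
    Finset.univ_inter, Finset.card_sdiff_of_subset hI]
  simp

theorem card_big (m k : ℕ) :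
    ((FF (univ.erase (0 : Fin (m + 1))) {0}).filter fun g => ∃ v, k ≤ ch 0 g v).card ≤
      (m + 1) * m.choose k * (m + 1) ^ (m - k) := by
  classical
  have hsub : ((FF (univ.erase (0 : Fin (m + 1))) {0}).filter fun g => ∃ v, k ≤ ch 0 g v) ⊆
      (univ : Finset (Fin (m + 1))).biUnion (fun v =>
        ((univ.erase (0 : Fin (m + 1))).powersetCard k).biUnion (fun I =>
          Fintype.piFinset (fun x : Fin (m + 1) =>
            if x = 0 then ({0} : Finset (Fin (m + 1))) else if x ∈ I then {v} else univ))) := by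
    intro g hg
    rw [mem_filter] at hg
    obtain ⟨hg1, v, hv⟩ := hg
    rw [mem_FF] at hg1
    have h0 : g 0 = 0 := hg1.1 0 (by simp)
    unfold ch at hv
    obtain ⟨I, hI1, hI2⟩ := Finset.exists_subset_card_eq hv
    rw [mem_biUnion]
    refine ⟨v, mem_univ _, ?_⟩
    rw [mem_biUnion]
    refine ⟨I, ?_, ?_⟩
    · rw [mem_powersetCard]
      refine ⟨fun x hx => ?_, hI2⟩
      have := hI1 hx
      rw [mem_filter] at this
      exact mem_erase.mpr ⟨this.2.1, mem_univ _⟩
    · rw [Fintype.mem_piFinset]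
      intro x
      by_cases hx : x = 0
      · subst hx; simp [h0]
      · by_cases hxI : x ∈ I
        · have := hI1 hxI
          rw [mem_filter] at this
          simp [hx, hxI, this.2.2]
        · simp [hx, hxI]
  refine (Finset.card_le_card hsub).trans ?_
  refine (Finset.card_biUnion_le).trans ?_
  have hin : ∀ v ∈ (univ : Finset (Fin (m + 1))),
      (((univ.erase (0 : Fin (m + 1))).powersetCard k).biUnion (fun I =>
          Fintype.piFinset (fun x : Fin (m + 1) =>
            if x = 0 then ({0} : Finset (Fin (m + 1))) else if x ∈ I then {v} else univ))).card ≤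
        m.choose k * (m + 1) ^ (m - k) := by
    intro v _
    refine (Finset.card_biUnion_le).trans ?_
    have h2 : ∀ I ∈ (univ.erase (0 : Fin (m + 1))).powersetCard k,
        (Fintype.piFinset (fun x : Fin (m + 1) =>
            if x = 0 then ({0} : Finset (Fin (m + 1))) else if x ∈ I then {v} else univ)).card
          = (m + 1) ^ (m - k) := by
      intro I hI
      rw [mem_powersetCard] at hI
      rw [h55c3_card_fix m v I hI.1, hI.2]
    rw [Finset.sum_congr rfl h2, Finset.sum_const, Finset.card_powersetCard,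
      Finset.card_erase_of_mem (mem_univ _), Finset.card_univ, Fintype.card_fin, smul_eq_mul]
    simp
  refine (Finset.sum_le_sum hin).trans ?_
  rw [Finset.sum_const, Finset.card_univ, Fintype.card_fin, smul_eq_mul, mul_assoc]

open Classical in
theorem lim_big (δ : ℝ) (hδ : 0 < δ) :
    Tendsto (fun m : ℕ => (((FF (univ.erase (0 : Fin (m + 1))) {0}).filter fun g =>
      ∃ v, δ * ((m + 1 : ℕ) : ℝ) < (ch 0 g v : ℝ) + 1).card : ℝ) /
        (FF (univ.erase (0 : Fin (m + 1))) {0}).card) atTop (𝓝 0) := by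
  have hkt : Tendsto (fun m : ℕ => ⌊δ * ((m + 1 : ℕ) : ℝ)⌋₊) atTop atTop := by
    refine tendsto_nat_floor_atTop.comp ?_
    refine Tendsto.const_mul_atTop hδ ?_
    exact tendsto_natCast_atTop_atTop.comp (tendsto_add_atTop_nat 1)
  have hbt : Tendsto (fun m : ℕ => (1 / δ ^ 2) *
      ((4 : ℝ) ^ ⌊δ * ((m + 1 : ℕ) : ℝ)⌋₊ / (Nat.factorial ⌊δ * ((m + 1 : ℕ) : ℝ)⌋₊ : ℝ)))
      atTop (𝓝 0) := by
    have h := (FloorSemiring.tendsto_pow_div_factorial_atTop (4 : ℝ)).comp hkt
    have h2 := h.const_mul (1 / δ ^ 2)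
    rw [mul_zero] at h2
    exact h2
  refine squeeze_zero' (Eventually.of_forall fun m => by positivity) ?_ hbt
  filter_upwards [eventually_ge_atTop 1] with m hm
  set k : ℕ := ⌊δ * ((m + 1 : ℕ) : ℝ)⌋₊ with hk
  have hF : (FF (univ.erase (0 : Fin (m + 1))) {0}).card = (m + 1) ^ (m - 1) := by
    have hU : (univ.erase (0 : Fin (m + 1))).card = m := by
      rw [Finset.card_erase_of_mem (mem_univ _), Finset.card_univ, Fintype.card_fin]; simp
    have hne : (univ.erase (0 : Fin (m + 1))).Nonempty := by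
      rw [← Finset.card_pos, hU]; omega
    rw [card_FF _ _ (by simp) hne, hU]
    simp
  have hsub : ((FF (univ.erase (0 : Fin (m + 1))) {0}).filter fun g =>
      ∃ v, δ * ((m + 1 : ℕ) : ℝ) < (ch 0 g v : ℝ) + 1) ⊆
      ((FF (univ.erase (0 : Fin (m + 1))) {0}).filter fun g => ∃ v, k ≤ ch 0 g v) := by
    intro g hg
    rw [mem_filter] at hg ⊢
    obtain ⟨h1, v, hv⟩ := hg
    refine ⟨h1, v, ?_⟩
    have hfl : (k : ℝ) ≤ δ * ((m + 1 : ℕ) : ℝ) := Nat.floor_le (by positivity)
    have : (k : ℝ) < ((ch 0 g v + 1 : ℕ) : ℝ) := by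
      push_cast
      push_cast at hv hfl
      linarith
    have := Nat.cast_lt.mp this
    omega
  have hcard : (((FF (univ.erase (0 : Fin (m + 1))) {0}).filter fun g =>
      ∃ v, δ * ((m + 1 : ℕ) : ℝ) < (ch 0 g v : ℝ) + 1).card : ℝ) ≤
      ((m + 1) * m.choose k * (m + 1) ^ (m - k) : ℕ) := by
    exact_mod_cast (Finset.card_le_card hsub).trans (card_big m k)
  rw [hF]
  have hN : (0 : ℝ) < (m : ℝ) + 1 := by positivity
  have hfac : (0 : ℝ) < (Nat.factorial k : ℝ) := by exact_mod_cast Nat.factorial_pos k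
  rw [div_le_iff₀ (by positivity)]
  refine hcard.trans ?_
  push_cast
  by_cases hkm : k ≤ m
  · have hch : ((m.choose k : ℕ) : ℝ) ≤ ((m : ℝ) + 1) ^ k / (Nat.factorial k : ℝ) := by
      refine (Nat.choose_le_pow_div (α := ℝ) k m).trans ?_
      gcongr
      linarith
    have hNk : ((m : ℝ) + 1) ≤ ((k : ℝ) + 1) / δ := by
      rw [le_div_iff₀ hδ]
      have := Nat.lt_floor_add_one (δ * ((m + 1 : ℕ) : ℝ))
      rw [← hk] at this
      push_cast at this
      linarith
    have hk2 : ((k : ℝ) + 1) ≤ 2 ^ k := by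
      have := Nat.lt_two_pow_self (n := k)
      exact_mod_cast this
    have hN2 : ((m : ℝ) + 1) ^ 2 ≤ 1 / δ ^ 2 * 4 ^ k := by
      calc ((m : ℝ) + 1) ^ 2 ≤ (((k : ℝ) + 1) / δ) ^ 2 := by gcongr
        _ = 1 / δ ^ 2 * ((k : ℝ) + 1) ^ 2 := by field_simp
        _ ≤ 1 / δ ^ 2 * (2 ^ k) ^ 2 := by gcongr
        _ = 1 / δ ^ 2 * 4 ^ k := by
            rw [← pow_mul, mul_comm k 2, pow_mul]; norm_num
    have hpow : ((m : ℝ) + 1) * (((m : ℝ) + 1) ^ k * ((m : ℝ) + 1) ^ (m - k)) =
        ((m : ℝ) + 1) ^ 2 * ((m : ℝ) + 1) ^ (m - 1) := by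
      rw [← pow_add, ← pow_add, ← pow_succ']
      congr 1
      omega
    calc ((m : ℝ) + 1) * (m.choose k : ℝ) * ((m : ℝ) + 1) ^ (m - k)
        ≤ ((m : ℝ) + 1) * (((m : ℝ) + 1) ^ k / (Nat.factorial k : ℝ)) *
            ((m : ℝ) + 1) ^ (m - k) := by gcongr
      _ = ((m : ℝ) + 1) * (((m : ℝ) + 1) ^ k * ((m : ℝ) + 1) ^ (m - k)) /
            (Nat.factorial k : ℝ) := by ring
      _ = ((m : ℝ) + 1) ^ 2 * ((m : ℝ) + 1) ^ (m - 1) / (Nat.factorial k : ℝ) := by rw [hpow]
      _ ≤ (1 / δ ^ 2 * 4 ^ k) * ((m : ℝ) + 1) ^ (m - 1) / (Nat.factorial k : ℝ) := by gcongr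
      _ = 1 / δ ^ 2 * (4 ^ k / (Nat.factorial k : ℝ)) * ((m : ℝ) + 1) ^ (m - 1) := by ring
  · rw [Nat.choose_eq_zero_of_lt (by omega)]
    have : (0 : ℝ) ≤ 1 / δ ^ 2 * (4 ^ k / (Nat.factorial k : ℝ)) * ((m : ℝ) + 1) ^ (m - 1) := by
      positivity
    simpa using this

end Pool.Agent.AA
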