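import Pool.Agent.Helper73.AA.C1

/-!
# AA-C5: second moment of the number of pendant paths

Proof in words (`n = m + 1`).  `∑_g |PN g|² = #{(g, u, u') : u, u' ∈ PN g}`; the pairs with `u = u'` give `∑ |PN g|` (left as it is).
If `u ≠ u'` are in `PN 0 g`, `v = g u`, `v' = g u'`, then `0, u, v, u', v'` are five different vertices (`v ≠ v'` as `v` has only one child,
`v ≠ u'` as `u'` has no child, ...), no other vertex is mapped to one of `u, v, u', v'`, and `g v, g v' ∉ {u, v, u', v'}`
(for example `g v = v'` would give `v = u'`, and `g v = v` is impossible since `v` reaches `0`).  So `(g, u, u')` is determined by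
`u, v, u', v'` (at most `m (m-1) (m-2) (m-3)` possibilities), by `g v, g v'` (at most `m - 3` possibilities each) and by the restriction of `g` to
the other vertices, an element of `FF (univ \ {0,u,v,u',v'}) {0}`, which has `(m-3)^(m-5)` elements by `card_FF`.  Total:
`m (m-1) (m-2) (m-3)^(m-2)`.  Only an injection into a set of this size is needed (upper bound).
-/

set_option autoImplicit false

namespace Pool.Agent.AA

open Finset

/-- the restriction of a parent function to the vertices outside two pendant paths is a parent function -/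
private theorem rest_mem_h22 {m : ℕ} {g : Fin (m + 1) → Fin (m + 1)} {u u' : Fin (m + 1)}
    (hg : g ∈ FF (univ.erase (0 : Fin (m + 1))) {0}) (hu : u ∈ PN 0 g) (hu' : u' ∈ PN 0 g) :
    (fun x => if x ∈ (univ : Finset (Fin (m + 1))) \ {0, u, g u, u', g u'} then g x else x) ∈
      FF ((univ : Finset (Fin (m + 1))) \ {0, u, g u, u', g u'}) {0} := by
  obtain ⟨R, hR⟩ : ∃ R : Finset (Fin (m + 1)), R = univ \ {0, u, g u, u', g u'} := ⟨_, rfl⟩
  have memR : ∀ x, x ∈ R ↔ x ≠ 0 ∧ x ≠ u ∧ x ≠ g u ∧ x ≠ u' ∧ x ≠ g u' := by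
    intro x
    rw [hR]
    simp only [mem_sdiff, mem_univ, mem_insert, mem_singleton, true_and, not_or]
  rw [← hR]
  rw [mem_PN] at hu hu'
  obtain ⟨h1, h2, h3, h4⟩ := hu
  obtain ⟨h1', h2', h3', h4'⟩ := hu'
  rw [mem_FF] at hg
  obtain ⟨g1, g2, g3⟩ := hg
  have key : ∀ x ∈ R, g x ∈ R ∨ g x = 0 := by
    intro x hx
    rw [memR] at hx
    by_cases h0 : g x = 0
    · exact Or.inr h0
    · left
      rw [memR]
      refine ⟨h0, h3 x hx.1, fun h => hx.2.1 (h4 x hx.1 h), h3' x hx.1,
        fun h => hx.2.2.2.1 (h4' x hx.1 h)⟩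
  have reach : ∀ k : ℕ, ∀ x, (x ∈ R ∨ x = 0) → g^[k] x = 0 →
      ∃ j : ℕ, (fun x => if x ∈ R then g x else x)^[j] x = 0 := by
    intro k
    induction k with
    | zero =>
      intro x _ h
      exact ⟨0, by simpa using h⟩
    | succ k ih =>
      intro x hx h
      by_cases h0 : x = 0
      · exact ⟨0, by simpa using h0⟩
      · have hxR : x ∈ R := hx.resolve_right h0
        rw [Function.iterate_succ_apply] at h
        obtain ⟨j, hj⟩ := ih (g x) (key x hxR) h
        refine ⟨j + 1, ?_⟩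
        rw [Function.iterate_succ_apply, if_pos hxR]
        exact hj
  rw [mem_FF]
  refine ⟨fun x hx => if_neg hx, fun x hx => ?_, fun x hx => ?_⟩
  · rw [if_pos hx, mem_union, mem_singleton]
    exact key x hx
  · have hx0 : x ≠ 0 := ((memR x).1 hx).1
    obtain ⟨k, hk⟩ := g3 x (mem_erase.2 ⟨hx0, mem_univ _⟩)
    obtain ⟨j, hj⟩ := reach k x (Or.inl hx) (mem_singleton.1 hk)
    exact ⟨j, mem_singleton.2 hj⟩

/-- the number of parent functions with two given pendant paths -/
private theorem fibre_h22 (m : ℕ) (hm : 6 ≤ m) {u v u' v' : Fin (m + 1)}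
    (d1 : u ≠ 0) (d2 : v ≠ 0) (d3 : u' ≠ 0) (d4 : v' ≠ 0) (d5 : v ≠ u) (d6 : u' ≠ u) (d7 : u' ≠ v)
    (d8 : v' ≠ u) (d9 : v' ≠ v) (d10 : v' ≠ u') :
    ((FF (univ.erase (0 : Fin (m + 1))) {0}).filter fun g =>
      u ∈ PN 0 g ∧ u' ∈ PN 0 g ∧ g u = v ∧ g u' = v').card ≤
      (m - 3) * ((m - 3) * (m - 3) ^ (m - 5)) := by
  obtain ⟨W, hW⟩ : ∃ W : Finset (Fin (m + 1)), W = univ \ {u, v, u', v'} := ⟨_, rfl⟩
  obtain ⟨R, hR⟩ : ∃ R : Finset (Fin (m + 1)), R = univ \ {0, u, v, u', v'} := ⟨_, rfl⟩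
  have cW : W.card = m - 3 := by
    rw [hW, ← Finset.compl_eq_univ_sdiff, card_compl, Fintype.card_fin, card_insert_of_notMem,
      card_insert_of_notMem, card_insert_of_notMem, card_singleton]
    · omega
    · simp only [mem_singleton]
      exact d10.symm
    · simp only [mem_insert, mem_singleton, not_or]
      exact ⟨d7.symm, d9.symm⟩
    · simp only [mem_insert, mem_singleton, not_or]
      exact ⟨d5.symm, d6.symm, d8.symm⟩
  have cR : R.card = m - 4 := by
    rw [hR, ← Finset.compl_eq_univ_sdiff, card_compl, Fintype.card_fin, card_insert_of_notMem,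
      card_insert_of_notMem, card_insert_of_notMem, card_insert_of_notMem, card_singleton]
    · omega
    · simp only [mem_singleton]
      exact d10.symm
    · simp only [mem_insert, mem_singleton, not_or]
      exact ⟨d7.symm, d9.symm⟩
    · simp only [mem_insert, mem_singleton, not_or]
      exact ⟨d5.symm, d6.symm, d8.symm⟩
    · simp only [mem_insert, mem_singleton, not_or]
      exact ⟨d1.symm, d2.symm, d3.symm, d4.symm⟩
  have memR : ∀ x, x ∈ R ↔ x ≠ 0 ∧ x ≠ u ∧ x ≠ v ∧ x ≠ u' ∧ x ≠ v' := by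
    intro x
    rw [hR]
    simp only [mem_sdiff, mem_univ, mem_insert, mem_singleton, true_and, not_or]
  have memW : ∀ x, x ∈ W ↔ x ≠ u ∧ x ≠ v ∧ x ≠ u' ∧ x ≠ v' := by
    intro x
    rw [hW]
    simp only [mem_sdiff, mem_univ, mem_insert, mem_singleton, true_and, not_or]
  have cF : (FF R {0}).card = (m - 3) ^ (m - 5) := by
    rw [card_FF R {0}]
    · rw [card_singleton, cR, one_mul]
      congr 1
      omega
    · rw [disjoint_singleton_right, memR]
      exact fun h => h.1 rfl
    · rw [← card_pos, cR]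
      omega
  calc _ ≤ (W ×ˢ (W ×ˢ FF R {0})).card := by
        refine card_le_card_of_injOn
          (fun g => (g v, g v', fun x => if x ∈ R then g x else x)) ?_ ?_
        · intro g hg
          have hg' := (mem_filter.1 (mem_coe.1 hg))
          obtain ⟨hF, hu, hu', e, e'⟩ := hg'
          have hr := rest_mem_h22 hF hu hu'
          rw [e, e', ← hR] at hr
          rw [mem_PN] at hu hu'
          obtain ⟨h1, h2, h3, h4⟩ := hu
          obtain ⟨h1', h2', h3', h4'⟩ := hu'
          rw [e] at h4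
          rw [e'] at h4'
          rw [mem_coe, mem_product, mem_product]
          refine ⟨?_, ?_, hr⟩
          · show g v ∈ W
            rw [memW]
            exact ⟨h3 v d2, fun h => d5 (h4 v d2 h), h3' v d2, fun h => d7 (h4' v d2 h).symm⟩
          · show g v' ∈ W
            rw [memW]
            exact ⟨h3 v' d4, fun h => d8 (h4 v' d4 h), h3' v' d4, fun h => d10 (h4' v' d4 h)⟩
        · intro g hg g' hg' h
          have hg1 := (mem_filter.1 (mem_coe.1 hg))
          have hg2 := (mem_filter.1 (mem_coe.1 hg'))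
          obtain ⟨hF, -, -, e, e'⟩ := hg1
          obtain ⟨hF2, -, -, e2, e2'⟩ := hg2
          rw [mem_FF] at hF hF2
          have h1 : g v = g' v := congrArg (fun p => p.1) h
          have h2 : g v' = g' v' := congrArg (fun p => p.2.1) h
          have h3 : (fun x => if x ∈ R then g x else x) = fun x => if x ∈ R then g' x else x :=
            congrArg (fun p => p.2.2) h
          ext1 x
          by_cases x0 : x = 0
          · rw [hF.1 x (by rw [x0]; exact notMem_erase _ _), hF2.1 x (by rw [x0]; exact notMem_erase _ _)]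
          by_cases xu : x = u
          · rw [xu, e, e2]
          by_cases xu' : x = u'
          · rw [xu', e', e2']
          by_cases xv : x = v
          · rw [xv, h1]
          by_cases xv' : x = v'
          · rw [xv', h2]
          have hx : x ∈ R := (memR x).2 ⟨x0, xu, xv, xu', xv'⟩
          have h4 := congrFun h3 x
          simp only [if_pos hx] at h4
          exact h4
    _ = (m - 3) * ((m - 3) * (m - 3) ^ (m - 5)) := by
        rw [card_product, card_product, cW, cF]

theorem sum_PN_sq (m : ℕ) (hm : 6 ≤ m) :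
    ∑ g ∈ FF (univ.erase (0 : Fin (m + 1))) {0}, (PN 0 g).card ^ 2 ≤
      ∑ g ∈ FF (univ.erase (0 : Fin (m + 1))) {0}, (PN 0 g).card +
        m * (m - 1) * (m - 2) * (m - 3) ^ (m - 2) := by
  classical
  have e1 : ∀ g : Fin (m + 1) → Fin (m + 1),
      (PN 0 g).card ^ 2 = (PN 0 g).card + ((PN 0 g).offDiag).card := by
    intro g
    rw [offDiag_card, pow_two]
    have : (PN 0 g).card ≤ (PN 0 g).card * (PN 0 g).card := Nat.le_mul_self _
    omega
  simp only [e1]
  rw [sum_add_distrib]
  refine Nat.add_le_add_left ?_ _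
  obtain ⟨A, hA⟩ : ∃ A : Finset (Fin (m + 1)), A = univ.erase 0 := ⟨_, rfl⟩
  have cA : A.card = m := by
    rw [hA, card_erase_of_mem (mem_univ _), card_univ, Fintype.card_fin]
    rfl
  have memA : ∀ x, x ∈ A ↔ x ≠ 0 := by
    intro x
    rw [hA]
    simp
  rw [← card_sigma]
  obtain ⟨T, hT⟩ : ∃ T : Finset ((_ : Fin (m + 1)) × (_ : Fin (m + 1)) × (_ : Fin (m + 1)) × Fin (m + 1)),
      T = A.sigma fun u => (A.erase u).sigma fun v => ((A.erase u).erase v).sigma fun u' =>
        ((A.erase u).erase v).erase u' := ⟨_, rfl⟩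
  have cT : T.card = m * ((m - 1) * ((m - 2) * (m - 3))) := by
    rw [hT, card_sigma]
    have s1 : ∀ u ∈ A, ((A.erase u).sigma fun v => ((A.erase u).erase v).sigma fun u' =>
        ((A.erase u).erase v).erase u').card = (m - 1) * ((m - 2) * (m - 3)) := by
      intro u hu
      have c1 : (A.erase u).card = m - 1 := by rw [card_erase_of_mem hu, cA]
      have s2 : ∀ v ∈ A.erase u, (((A.erase u).erase v).sigma fun u' =>
          ((A.erase u).erase v).erase u').card = (m - 2) * (m - 3) := by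
        intro v hv
        have c2 : ((A.erase u).erase v).card = m - 2 := by
          rw [card_erase_of_mem hv, c1]; rfl
        have s3 : ∀ u' ∈ (A.erase u).erase v,
            (((A.erase u).erase v).erase u').card = m - 3 := by
          intro u' hu'
          rw [card_erase_of_mem hu', c2]
          rfl
        rw [card_sigma, sum_const_nat s3, c2]
      rw [card_sigma, sum_const_nat s2, c1]
    rw [sum_const_nat s1, cA]
  have memT : ∀ u v u' v' : Fin (m + 1), (⟨u, v, u', v'⟩ :
      (_ : Fin (m + 1)) × (_ : Fin (m + 1)) × (_ : Fin (m + 1)) × Fin (m + 1)) ∈ T ↔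
      u ≠ 0 ∧ (v ≠ u ∧ v ≠ 0) ∧ (u' ≠ v ∧ u' ≠ u ∧ u' ≠ 0) ∧ (v' ≠ u' ∧ v' ≠ v ∧ v' ≠ u ∧ v' ≠ 0) := by
    intro u v u' v'
    rw [hT]
    simp only [mem_sigma, mem_erase, memA]
  have hmain := card_le_mul_card_image_of_maps_to
    (s := (FF (univ.erase (0 : Fin (m + 1))) {0}).sigma fun g => (PN 0 g).offDiag) (t := T)
    (f := fun p => ⟨p.2.1, p.1 p.2.1, p.2.2, p.1 p.2.2⟩) (by
      rintro ⟨g, u, u'⟩ hp
      rw [mem_sigma] at hp
      obtain ⟨-, hp⟩ := hp
      simp only [mem_offDiag] at hp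
      obtain ⟨hu, hu', hne⟩ := hp
      rw [mem_PN] at hu hu'
      obtain ⟨h1, h2, h3, h4⟩ := hu
      obtain ⟨h1', h2', h3', h4'⟩ := hu'
      show (⟨u, g u, u', g u'⟩ :
        (_ : Fin (m + 1)) × (_ : Fin (m + 1)) × (_ : Fin (m + 1)) × Fin (m + 1)) ∈ T
      rw [memT]
      exact ⟨h1, ⟨h3 u h1, h2⟩, ⟨(h3' u h1).symm, fun h => hne h.symm, h1'⟩,
        ⟨h3' u' h1', fun h => hne (h4 u' h1' h).symm, h3 u' h1', h2'⟩⟩)
    ((m - 3) * ((m - 3) * (m - 3) ^ (m - 5))) (by
      rintro ⟨u, v, u', v'⟩ hq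
      rw [memT] at hq
      obtain ⟨q1, ⟨q2, q3⟩, ⟨q4, q5, q6⟩, ⟨q7, q8, q9, q10⟩⟩ := hq
      refine le_trans ?_ (fibre_h22 m hm q1 q3 q6 q10 q2 q5 q4 q9 q8 q7)
      refine card_le_card_of_injOn (fun p => p.1) ?_ ?_
      · rintro ⟨g, a, b⟩ hp
        have hp' := mem_filter.1 (mem_coe.1 hp)
        obtain ⟨hs, he⟩ := hp'
        rw [mem_sigma] at hs
        obtain ⟨hgF, hs⟩ := hs
        simp only [mem_offDiag] at hs
        simp only [Sigma.mk.injEq, heq_eq_eq] at he
        obtain ⟨rfl, ea, rfl, eb⟩ := he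
        rw [mem_coe, mem_filter]
        exact ⟨hgF, hs.1, hs.2.1, ea, eb⟩
      · rintro ⟨g, a, b⟩ hp ⟨g', a', b'⟩ hp' h
        have hp1 := (mem_filter.1 (mem_coe.1 hp)).2
        have hp2 := (mem_filter.1 (mem_coe.1 hp')).2
        simp only [Sigma.mk.injEq, heq_eq_eq] at hp1 hp2
        obtain ⟨ha, -, hb, -⟩ := hp1
        obtain ⟨ha', -, hb', -⟩ := hp2
        have hg : g = g' := h
        rw [hg, ha, hb, ha', hb'])
  refine hmain.trans (le_of_eq ?_)
  rw [cT]
  obtain ⟨k, rfl⟩ : ∃ k, m = k + 6 := ⟨m - 6, by omega⟩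
  have a1 : k + 6 - 3 = k + 3 := by omega
  have a2 : k + 6 - 5 = k + 1 := by omega
  have a3 : k + 6 - 2 = k + 4 := by omega
  have a4 : k + 6 - 1 = k + 5 := by omega
  rw [a1, a2, a3, a4, pow_succ (k + 3) k, pow_add (k + 3) k 4]
  ring

end Pool.Agent.AA
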