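import Pool.Agent.Helper73.AA.C4
import Pool.Agent.Helper73.AA.C5

/-!
# AA-C6: almost all trees have at least n/20 pendant paths

Proof in words.  Let `n = m + 1`, `t = #FF = n^(n-2)` (`card_FF`), `N g = |PN 0 g|`, `M1 = ∑ N`, `M2 = ∑ N²`.  By `sum_PN`,
`M1/(t n) ≥ m (m-1)^(m-1) / ((m+1)^(m-1) (m+1)) = (m/(m+1)) (1 - 2/(m+1))^(m-1) → exp (-2) > 1/10`; by `sum_PN_sq` and `sum_PN_le`,
`M2/(t n²) ≤ M1/(t n²) + (...) (1 - 4/(m+1))^(m-1) → exp (-4)` (`(m-3)^(m-2) m (m-1) (m-2) / ((m+1)^(m-1) (m+1)²)`, the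
last quotient tends to `exp (-4)`).  Chebyshev in the form: for the `g` with `N g < n/20`, `(N g - μ)² ≥ (μ - n/20)²` with `μ = M1/t`
(`μ ≥ n/10` for `n` large), so `# * (n/20)² ≤ ∑ (N - μ)² = M2 - t μ²` and `(M2 - t μ²)/(t n²) → 0` because
`M2/(t n²) ≤ exp (-4) + o(1)` and `(μ/n)² ≥ exp (-4) - o(1)`.
-/

set_option autoImplicit false

namespace Pool.Agent.AA

open Finset Filter Topology

namespace C6h56

theorem lim_inv (k : ℝ) : Tendsto (fun m : ℕ => k / ((m : ℝ) + 1)) atTop (𝓝 0) := by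
  have h := (tendsto_one_div_add_atTop_nhds_zero_nat (𝕜 := ℝ)).const_mul k
  rw [mul_zero] at h
  refine h.congr fun m => ?_
  ring

theorem lim_base (k : ℝ) : Tendsto (fun m : ℕ => 1 - k / ((m : ℝ) + 1)) atTop (𝓝 1) := by
  have h := (tendsto_const_nhds (x := (1 : ℝ))).sub (lim_inv k)
  rwa [sub_zero] at h

theorem lim_pow (k : ℝ) (j : ℕ) :
    Tendsto (fun m : ℕ => (1 - k / ((m : ℝ) + 1)) ^ (m + 1 - j)) atTop (𝓝 (Real.exp (-k))) := by
  have h1 : Tendsto (fun m : ℕ => (1 - k / ((m : ℝ) + 1)) ^ (m + 1)) atTop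
      (𝓝 (Real.exp (-k))) := by
    have h := (Real.tendsto_one_add_div_pow_exp (-k)).comp (tendsto_add_atTop_nat 1)
    refine h.congr fun m => ?_
    simp only [Function.comp_apply]
    congr 1
    push_cast
    ring
  have h2 := h1.div ((lim_base k).pow j) (by simp)
  rw [one_pow, div_one] at h2
  refine h2.congr' ?_
  have h3 : ∀ᶠ m : ℕ in atTop, 1 - k / ((m : ℝ) + 1) ≠ 0 :=
    (lim_base k).eventually_ne (by norm_num)
  filter_upwards [h3, eventually_ge_atTop j] with m hm hj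
  simp only [Pi.div_apply]
  rw [div_eq_iff (pow_ne_zero _ hm), ← pow_add]
  congr 1
  omega

/-- first moment over `t n` -/
noncomputable def a (m : ℕ) : ℝ :=
  (m : ℝ) * ((m : ℝ) - 1) ^ (m - 1) / (((m : ℝ) + 1) ^ (m - 1) * ((m : ℝ) + 1))

/-- main part of the second moment over `t n²` -/
noncomputable def c (m : ℕ) : ℝ :=
  (m : ℝ) * ((m : ℝ) - 1) * ((m : ℝ) - 2) * ((m : ℝ) - 3) ^ (m - 2) /
    (((m : ℝ) + 1) ^ (m - 1) * ((m : ℝ) + 1) ^ 2)

theorem lim_a : Tendsto a atTop (𝓝 (Real.exp (-2))) := by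
  have h := (lim_base 1).mul (lim_pow 2 2)
  rw [one_mul] at h
  refine h.congr' ?_
  filter_upwards [eventually_ge_atTop 3] with m hm
  have hm1 : (m : ℝ) + 1 ≠ 0 := by positivity
  have e1 : (1 : ℝ) - 1 / ((m : ℝ) + 1) = (m : ℝ) / (m + 1) := by
    field_simp
    ring
  have e2 : (1 : ℝ) - 2 / ((m : ℝ) + 1) = ((m : ℝ) - 1) / (m + 1) := by
    field_simp
    ring
  have e3 : m + 1 - 2 = m - 1 := by omega
  rw [e1, e2, e3, a, div_pow]
  field_simp

theorem lim_c : Tendsto c atTop (𝓝 (Real.exp (-4))) := by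
  have h := (((lim_base 1).mul (lim_base 2)).mul (lim_base 3)).mul (lim_pow 4 3)
  rw [one_mul, one_mul, one_mul] at h
  refine h.congr' ?_
  filter_upwards [eventually_ge_atTop 6] with m hm
  have hm1 : (m : ℝ) + 1 ≠ 0 := by positivity
  have e1 : (1 : ℝ) - 1 / ((m : ℝ) + 1) = (m : ℝ) / (m + 1) := by
    field_simp
    ring
  have e2 : (1 : ℝ) - 2 / ((m : ℝ) + 1) = ((m : ℝ) - 1) / (m + 1) := by
    field_simp
    ring
  have e4 : (1 : ℝ) - 3 / ((m : ℝ) + 1) = ((m : ℝ) - 2) / (m + 1) := by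
    field_simp
    ring
  have e5 : (1 : ℝ) - 4 / ((m : ℝ) + 1) = ((m : ℝ) - 3) / (m + 1) := by
    field_simp
    ring
  have e3 : m + 1 - 3 = m - 2 := by omega
  have e6 : m - 1 = m - 2 + 1 := by omega
  rw [e1, e2, e4, e5, e3, c, div_pow, e6, pow_succ]
  field_simp

/-- Chebyshev -/
theorem cheb {ι : Type} (F : Finset ι) (P : ι → Prop) [DecidablePred P] (N : ι → ℝ)
    {n M1 M2 : ℝ} (hn : 0 < n) (hF : 0 < (F.card : ℝ)) (h1 : ∑ g ∈ F, N g = M1)
    (h2 : ∑ g ∈ F, N g ^ 2 ≤ M2) (hP : ∀ g ∈ F, P g → N g < 1 / 20 * n)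
    (hμ : 1 / 10 ≤ M1 / (F.card * n)) :
    ((F.filter P).card : ℝ) / F.card ≤ 400 * (M2 / (F.card * n ^ 2) - (M1 / (F.card * n)) ^ 2) := by
  set t : ℝ := (F.card : ℝ) with ht
  set μ : ℝ := M1 / t with hμd
  have hμ1 : 1 / 10 * n ≤ μ := by
    have e : M1 / (t * n) = μ / n := by
      rw [hμd]
      field_simp
    rw [e, le_div_iff₀ hn] at hμ
    exact hμ
  have hsum : ∑ g ∈ F, (N g - μ) ^ 2 ≤ M2 - t * μ ^ 2 := by
    have e1 : ∑ g ∈ F, (N g - μ) ^ 2 = ∑ g ∈ F, N g ^ 2 - 2 * μ * ∑ g ∈ F, N g + t * μ ^ 2 := by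
      have : ∀ g ∈ F, (N g - μ) ^ 2 = N g ^ 2 - 2 * μ * N g + μ ^ 2 := fun g _ => by ring
      rw [sum_congr rfl this, sum_add_distrib, sum_sub_distrib, ← mul_sum, sum_const,
        nsmul_eq_mul]
    rw [e1, h1]
    have e2 : M1 = t * μ := by
      rw [hμd]
      field_simp
    rw [e2]
    nlinarith
  have hlow : ((F.filter P).card : ℝ) * (n / 20) ^ 2 ≤ ∑ g ∈ F, (N g - μ) ^ 2 := by
    calc ((F.filter P).card : ℝ) * (n / 20) ^ 2 = ∑ g ∈ F.filter P, (n / 20) ^ 2 := by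
          rw [sum_const, nsmul_eq_mul]
      _ ≤ ∑ g ∈ F.filter P, (N g - μ) ^ 2 := by
          refine sum_le_sum fun g hg => ?_
          rw [mem_filter] at hg
          have h3 := hP g hg.1 hg.2
          have h4 : n / 20 ≤ μ - N g := by linarith
          nlinarith
      _ ≤ ∑ g ∈ F, (N g - μ) ^ 2 :=
          sum_le_sum_of_subset_of_nonneg (filter_subset _ _) fun _ _ _ => sq_nonneg _
  have hfin := hlow.trans hsum
  have e3 : 400 * (M2 / (t * n ^ 2) - (M1 / (t * n)) ^ 2) = 400 * (M2 - t * μ ^ 2) / (t * n ^ 2) := by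
    rw [hμd]
    field_simp
  rw [e3, div_le_div_iff₀ hF (by positivity)]
  nlinarith

end C6h56

open C6h56

open Classical in
theorem lim_few :
    Tendsto (fun m : ℕ => (((FF (univ.erase (0 : Fin (m + 1))) {0}).filter fun g =>
      ((PN 0 g).card : ℝ) < 1 / 20 * ((m + 1 : ℕ) : ℝ)).card : ℝ) /
        (FF (univ.erase (0 : Fin (m + 1))) {0}).card) atTop (𝓝 0) := by
  have hup : Tendsto (fun m : ℕ => 400 * (a m / ((m : ℝ) + 1) + c m - a m ^ 2)) atTop (𝓝 0) := by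
    have h1 : Tendsto (fun m : ℕ => a m * (1 / ((m : ℝ) + 1))) atTop (𝓝 (Real.exp (-2) * 0)) :=
      lim_a.mul (lim_inv 1)
    have h2 := ((h1.add lim_c).sub (lim_a.pow 2)).const_mul 400
    have e : 400 * (Real.exp (-2) * 0 + Real.exp (-4) - Real.exp (-2) ^ 2) = 0 := by
      rw [← Real.exp_nat_mul]
      norm_num
    rw [e] at h2
    refine h2.congr fun m => ?_
    ring
  have hexp : (1 : ℝ) / 10 < Real.exp (-2) := by
    have h1 : Real.exp 2 < 10 := by
      have h2 : Real.exp 2 = Real.exp 1 ^ 2 := by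
        rw [← Real.exp_nat_mul]
        norm_num
      rw [h2]
      have h3 := Real.exp_one_lt_d9
      have h4 := Real.exp_pos 1
      nlinarith
    rw [Real.exp_neg, one_div]
    exact inv_strictAnti₀ (Real.exp_pos 2) h1
  have ha : ∀ᶠ m : ℕ in atTop, 1 / 10 < a m := lim_a.eventually_const_lt hexp
  refine tendsto_of_tendsto_of_tendsto_of_le_of_le' tendsto_const_nhds hup ?_ ?_
  · exact Eventually.of_forall fun m => div_nonneg (Nat.cast_nonneg _) (Nat.cast_nonneg _)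
  filter_upwards [ha, eventually_ge_atTop 6] with m ham hm
  set F := FF (univ.erase (0 : Fin (m + 1))) {0} with hF
  have hcard : F.card = (m + 1) ^ (m - 1) := by
    have hU : (univ.erase (0 : Fin (m + 1))).card = m := by
      rw [card_erase_of_mem (mem_univ _), card_univ, Fintype.card_fin]
      rfl
    rw [hF, card_FF]
    · rw [hU, card_singleton, one_mul]
    · rw [disjoint_singleton_right]
      exact notMem_erase _ _
    · rw [← card_pos, hU]
      omega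
  have hcardr : (F.card : ℝ) = ((m : ℝ) + 1) ^ (m - 1) := by
    rw [hcard]
    push_cast
    rfl
  have hFpos : 0 < (F.card : ℝ) := by
    rw [hcardr]
    positivity
  have c1 : ((m - 1 : ℕ) : ℝ) = (m : ℝ) - 1 := by
    rw [Nat.cast_sub (by omega)]
    norm_num
  have c2 : ((m - 2 : ℕ) : ℝ) = (m : ℝ) - 2 := by
    rw [Nat.cast_sub (by omega)]
    norm_num
  have c3 : ((m - 3 : ℕ) : ℝ) = (m : ℝ) - 3 := by
    rw [Nat.cast_sub (by omega)]
    norm_num
  have hM1 : ∑ g ∈ F, (PN 0 g).card = m * (m - 1) ^ (m - 1) :=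
    le_antisymm (sum_PN_le m (by omega)) (sum_PN m (by omega))
  have hM1r : ∑ g ∈ F, ((PN 0 g).card : ℝ) = (m : ℝ) * ((m : ℝ) - 1) ^ (m - 1) := by
    have : ((∑ g ∈ F, (PN 0 g).card : ℕ) : ℝ) = ((m * (m - 1) ^ (m - 1) : ℕ) : ℝ) := by
      rw [hM1]
    push_cast at this
    rw [← c1]
    exact_mod_cast this
  have hM2r : ∑ g ∈ F, ((PN 0 g).card : ℝ) ^ 2 ≤ (m : ℝ) * ((m : ℝ) - 1) ^ (m - 1) +
      (m : ℝ) * ((m : ℝ) - 1) * ((m : ℝ) - 2) * ((m : ℝ) - 3) ^ (m - 2) := by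
    have h := sum_PN_sq m hm
    rw [← hF, hM1] at h
    rw [← c1, ← c2, ← c3]
    exact_mod_cast h
  have hn : (0 : ℝ) < (m : ℝ) + 1 := by positivity
  have key := cheb F (fun g => ((PN 0 g).card : ℝ) < 1 / 20 * ((m + 1 : ℕ) : ℝ))
    (fun g => ((PN 0 g).card : ℝ)) hn hFpos hM1r hM2r
    (fun g _ hg => by
      push_cast at hg
      exact hg)
    (by
      rw [hcardr]
      exact ham.le)
  refine key.trans (le_of_eq ?_)
  rw [hcardr, a, c]
  field_simp

end Pool.Agent.AA
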