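import Pool.Agent.Helper73.AA.C2
import Pool.Agent.Helper73.AA.C3
import Pool.Agent.Helper73.AA.C6

/-!
# AA-C7: a property of trees with linearly many pendant paths and small maximum degree holds for almost all trees
-/

set_option autoImplicit false

namespace Pool.Agent.AA

open Finset Filter Topology

open Classical in
theorem card_tree_filter (m : ℕ) (Q : SimpleGraph (Fin (m + 1)) → Prop) :
    (univ.filter fun G : SimpleGraph (Fin (m + 1)) => G.IsTree ∧ Q G).card =
      ((FF (univ.erase (0 : Fin (m + 1))) {0}).filter fun g => Q (treeOf g)).card := by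
  symm
  refine Finset.card_nbij treeOf ?_ ?_ ?_
  · intro g hg
    obtain ⟨h1, h2⟩ := mem_filter.1 hg
    exact mem_filter.2 ⟨mem_univ _, treeOf_isTree 0 h1, h2⟩
  · intro g hg g' hg' e
    exact treeOf_injOn 0 (mem_filter.1 hg).1 (mem_filter.1 hg').1 e
  · intro G hG
    obtain ⟨-, h1, h2⟩ := mem_filter.1 hG
    obtain ⟨g, hg, rfl⟩ := treeOf_surj 0 G h1
    exact ⟨g, mem_filter.2 ⟨hg, h2⟩, rfl⟩

open Classical in
/-- If `P` holds for all large trees with all degrees at most `δ n` and at least `n/20` leaves at vertices of degree two (some `δ > 0`) then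
it holds for almost all labelled trees. -/
theorem almost_all (P : (n : ℕ) → SimpleGraph (Fin n) → Prop)
    (h : ∃ δ : ℝ, 0 < δ ∧ ∃ n₀ : ℕ, ∀ (n : ℕ) (G : SimpleGraph (Fin n)), n₀ ≤ n →
      G.IsTree → (∀ v, (G.degree v : ℝ) ≤ δ * n) →
      (1 / 20 : ℝ) * n ≤ ((univ.filter fun u : Fin n =>
        G.degree u = 1 ∧ ∃ w, G.Adj u w ∧ G.degree w = 2).card : ℝ) → P n G) :
    Tendsto (fun n : ℕ => ((univ.filter fun G : SimpleGraph (Fin n) => G.IsTree ∧ P n G).card : ℝ) /
      (univ.filter fun G : SimpleGraph (Fin n) => G.IsTree).card) atTop (𝓝 1) := by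
  obtain ⟨δ, hδ, n₀, hP⟩ := h
  rw [← tendsto_add_atTop_iff_nat 1]
  have h1 := lim_big δ hδ
  have h2 := lim_few
  have h3 : Tendsto (fun m : ℕ => 1 - ((((FF (univ.erase (0 : Fin (m + 1))) {0}).filter fun g =>
      ∃ v, δ * ((m + 1 : ℕ) : ℝ) < (ch 0 g v : ℝ) + 1).card : ℝ) /
        (FF (univ.erase (0 : Fin (m + 1))) {0}).card +
      (((FF (univ.erase (0 : Fin (m + 1))) {0}).filter fun g =>
      ((PN 0 g).card : ℝ) < 1 / 20 * ((m + 1 : ℕ) : ℝ)).card : ℝ) /
        (FF (univ.erase (0 : Fin (m + 1))) {0}).card)) atTop (𝓝 1) := by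
    have := (tendsto_const_nhds (x := (1 : ℝ)) (f := (atTop : Filter ℕ))).sub (h1.add h2)
    simpa using this
  refine tendsto_of_tendsto_of_tendsto_of_le_of_le' h3 tendsto_const_nhds ?_ ?_
  · filter_upwards [eventually_ge_atTop (n₀ + 1)] with m hm
    have hA : (0 : ℝ) < ((FF (univ.erase (0 : Fin (m + 1))) {0}).card : ℝ) := by
      rw [card_FF]
      · rw [card_singleton, one_mul]
        push_cast
        have : (0 : ℝ) < ((univ.erase (0 : Fin (m + 1))).card : ℝ) + 1 := by positivity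
        positivity
      · simp
      · refine ⟨Fin.last m, ?_⟩
        rw [mem_erase]
        refine ⟨?_, mem_univ _⟩
        intro e
        have := congrArg Fin.val e
        simp at this
        omega
    have e1 : (univ.filter fun G : SimpleGraph (Fin (m + 1)) => G.IsTree).card =
        (FF (univ.erase (0 : Fin (m + 1))) {0}).card := by
      have := card_tree_filter m fun _ => True
      simpa using this
    rw [card_tree_filter m (P (m + 1)), e1, le_div_iff₀ hA, sub_mul, add_mul, div_mul_cancel₀ _ hA.ne',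
      div_mul_cancel₀ _ hA.ne', one_mul]
    have hsub : FF (univ.erase (0 : Fin (m + 1))) {0} ⊆
        ((FF (univ.erase (0 : Fin (m + 1))) {0}).filter fun g => P (m + 1) (treeOf g)) ∪
        (((FF (univ.erase (0 : Fin (m + 1))) {0}).filter fun g =>
            ∃ v, δ * ((m + 1 : ℕ) : ℝ) < (ch 0 g v : ℝ) + 1) ∪
          ((FF (univ.erase (0 : Fin (m + 1))) {0}).filter fun g =>
            ((PN 0 g).card : ℝ) < 1 / 20 * ((m + 1 : ℕ) : ℝ))) := by
      intro g hg
      by_cases hb : ∃ v, δ * ((m + 1 : ℕ) : ℝ) < (ch 0 g v : ℝ) + 1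
      · exact mem_union_right _ (mem_union_left _ (mem_filter.2 ⟨hg, hb⟩))
      by_cases hf : ((PN 0 g).card : ℝ) < 1 / 20 * ((m + 1 : ℕ) : ℝ)
      · exact mem_union_right _ (mem_union_right _ (mem_filter.2 ⟨hg, hf⟩))
      refine mem_union_left _ (mem_filter.2 ⟨hg, hP (m + 1) _ (by omega) (treeOf_isTree 0 hg) ?_ ?_⟩)
      · intro v
        have h4 : (((treeOf g).degree v : ℕ) : ℝ) ≤ ((ch 0 g v + 1 : ℕ) : ℝ) := by
          exact_mod_cast degree_le 0 hg v
        have h5 : ¬ δ * ((m + 1 : ℕ) : ℝ) < (ch 0 g v : ℝ) + 1 := fun h => hb ⟨v, h⟩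
        push_cast at h4 h5 ⊢
        linarith
      · have h6 : (PN 0 g).card ≤ (univ.filter fun u : Fin (m + 1) =>
            (treeOf g).degree u = 1 ∧ ∃ w, (treeOf g).Adj u w ∧ (treeOf g).degree w = 2).card := by
          refine card_le_card ?_
          intro u hu
          exact mem_filter.2 ⟨mem_univ _, degree_pend 0 hg hu⟩
        have h7 : ((PN 0 g).card : ℝ) ≤ ((univ.filter fun u : Fin (m + 1) =>
            (treeOf g).degree u = 1 ∧ ∃ w, (treeOf g).Adj u w ∧ (treeOf g).degree w = 2).card : ℝ) := by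
          exact_mod_cast h6
        linarith
    have hc := (card_le_card hsub).trans (card_union_le _ _)
    have hc2 := card_union_le ((FF (univ.erase (0 : Fin (m + 1))) {0}).filter fun g =>
            ∃ v, δ * ((m + 1 : ℕ) : ℝ) < (ch 0 g v : ℝ) + 1)
          ((FF (univ.erase (0 : Fin (m + 1))) {0}).filter fun g =>
            ((PN 0 g).card : ℝ) < 1 / 20 * ((m + 1 : ℕ) : ℝ))
    have hc3 := hc.trans (Nat.add_le_add_left hc2 _)
    have hc4 : ((FF (univ.erase (0 : Fin (m + 1))) {0}).card : ℝ) ≤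
        (((FF (univ.erase (0 : Fin (m + 1))) {0}).filter fun g => P (m + 1) (treeOf g)).card : ℝ) +
        ((((FF (univ.erase (0 : Fin (m + 1))) {0}).filter fun g =>
            ∃ v, δ * ((m + 1 : ℕ) : ℝ) < (ch 0 g v : ℝ) + 1).card : ℝ) +
          (((FF (univ.erase (0 : Fin (m + 1))) {0}).filter fun g =>
            ((PN 0 g).card : ℝ) < 1 / 20 * ((m + 1 : ℕ) : ℝ)).card : ℝ)) := by
      exact_mod_cast hc3
    linarith
  · filter_upwards with m
    refine div_le_one_of_le₀ ?_ (Nat.cast_nonneg _)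
    exact_mod_cast card_le_card fun G hG => by
      obtain ⟨h1, h2, -⟩ := mem_filter.1 hG
      exact mem_filter.2 ⟨h1, h2⟩

end Pool.Agent.AA
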