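import Pool.Agent.Helper73.AA.Defs

/-!
# AA-C1: the number of rooted forests (Cayley)

Proof in words.  Induction on `|U|` (for all `S`).  Split `FF U S` according to `I = {x ∈ U : g x ∈ S}`:
`g ∈ FF U S` with this `I` is the same as an arbitrary map `I → S` (`s^i` choices) together with the element of `FF (U \ I) I`
that agrees with `g` on `U \ I` (and is the identity elsewhere): for `x ∈ U \ I` the value `g x` is in `U` and `x` reaches `I` first.
For `I = U` there are `s^u` functions, for `I = ∅` none (`FF U ∅ = ∅` if `U ≠ ∅`), for `0 < i < u` the induction hypothesis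
gives `i * u ^ (u-i-1)`.  So with `u = |U|`, `s = |S|`, `i = |I|`
`#FF = s^u + ∑_{0<i<u} C(u,i) s^i i u^(u-i-1) = ∑_{1 ≤ i ≤ u} C(u-1,i-1) s^i u^(u-i) = s (u+s)^(u-1)` (`i C(u,i) = u C(u-1,i-1)`, binomial theorem).
-/

set_option autoImplicit false

namespace Pool.Agent.AA

open Finset

variable {α : Type} [Fintype α] [DecidableEq α]

theorem card_FF_empty (S : Finset α) : (FF ∅ S).card = 1 := by
  rw [card_eq_one]
  refine ⟨fun x => x, ?_⟩
  ext g
  rw [mem_FF, mem_singleton]
  constructor
  · rintro ⟨h, -, -⟩
    funext x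
    exact h x (notMem_empty x)
  · rintro rfl
    refine ⟨fun x _ => rfl, fun x hx => absurd hx (notMem_empty x), fun x hx => absurd hx (notMem_empty x)⟩

theorem h97_card_FF_none (U : Finset α) (hU : U.Nonempty) : (FF U ∅).card = 0 := by
  rw [card_eq_zero, eq_empty_iff_forall_notMem]
  intro g hg
  rw [mem_FF] at hg
  obtain ⟨x, hx⟩ := hU
  obtain ⟨k, hk⟩ := hg.2.2 x hx
  exact notMem_empty _ hk

theorem h97_reach_fwd {U S I : Finset α} {g : α → α} (hd : Disjoint U S)
    (h2 : ∀ x ∈ U, g x ∈ U ∪ S) (hI : ∀ x, x ∈ I ↔ x ∈ U ∧ g x ∈ S) :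
    ∀ (k : ℕ) (y : α), y ∈ U → g^[k] y ∈ S →
      ∃ m : ℕ, (fun x => if x ∈ U \ I then g x else x)^[m] y ∈ I := by
  intro k
  induction k with
  | zero =>
    intro y hy hyS
    exact absurd hyS (disjoint_left.mp hd hy)
  | succ k ih =>
    intro y hy hk
    by_cases hyI : y ∈ I
    · exact ⟨0, hyI⟩
    · have hgy : g y ∉ S := fun h => hyI ((hI y).mpr ⟨hy, h⟩)
      have hgU : g y ∈ U := by
        rcases mem_union.mp (h2 y hy) with h | h
        · exact h
        · exact absurd h hgy
      rw [Function.iterate_succ_apply] at hk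
      obtain ⟨m, hm⟩ := ih (g y) hgU hk
      refine ⟨m + 1, ?_⟩
      rw [Function.iterate_succ_apply]
      have : (if y ∈ U \ I then g y else y) = g y := if_pos (mem_sdiff.mpr ⟨hy, hyI⟩)
      simp only [this]
      exact hm

theorem h97_reach_bwd {U S I : Finset α} {f g : α → α}
    (hf : ∀ x ∈ I, f x ∈ S)
    (h2 : ∀ x ∈ U \ I, g x ∈ (U \ I) ∪ I) (hIU : I ⊆ U) :
    ∀ (k : ℕ) (y : α), y ∈ U → g^[k] y ∈ I →
      ∃ m : ℕ, (fun x => if x ∈ I then f x else g x)^[m] y ∈ S := by
  intro k
  have base : ∀ y ∈ I, ∃ m : ℕ, (fun x => if x ∈ I then f x else g x)^[m] y ∈ S := by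
    intro y hy
    refine ⟨1, ?_⟩
    rw [Function.iterate_one]
    simp only [if_pos hy]
    exact hf y hy
  induction k with
  | zero =>
    intro y hy hyS
    exact base y hyS
  | succ k ih =>
    intro y hy hk
    by_cases hyI : y ∈ I
    · exact base y hyI
    · have hyU : y ∈ U \ I := mem_sdiff.mpr ⟨hy, hyI⟩
      have hgU : g y ∈ U := by
        rcases mem_union.mp (h2 y hyU) with h | h
        · exact (mem_sdiff.mp h).1
        · exact hIU h
      rw [Function.iterate_succ_apply] at hk
      obtain ⟨m, hm⟩ := ih (g y) hgU hk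
      refine ⟨m + 1, ?_⟩
      rw [Function.iterate_succ_apply]
      simp only [if_neg hyI]
      exact hm

theorem h97_card_fiber (U S I : Finset α) (hd : Disjoint U S) (hIU : I ⊆ U) :
    ((FF U S).filter fun g => (U.filter fun x => g x ∈ S) = I).card =
      S.card ^ I.card * (FF (U \ I) I).card := by
  have hpi : (Fintype.piFinset fun x : α => if x ∈ I then S else ({x} : Finset α)).card =
      S.card ^ I.card := by
    rw [Fintype.card_piFinset]
    have : ∀ x : α, (if x ∈ I then S else ({x} : Finset α)).card = if x ∈ I then S.card else 1 := by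
      intro x
      split_ifs
      · rfl
      · exact card_singleton x
    rw [Finset.prod_congr rfl (fun x _ => this x), Finset.prod_ite]
    simp
  rw [← hpi, ← card_product]
  refine card_bij'
    (fun g _ => ((fun x => if x ∈ I then g x else x), (fun x => if x ∈ U \ I then g x else x)))
    (fun p _ => fun x => if x ∈ I then p.1 x else p.2 x) ?_ ?_ ?_ ?_
  · intro g hg
    rw [mem_filter, mem_FF] at hg
    obtain ⟨⟨h1, h2, h3⟩, h4⟩ := hg
    have hI : ∀ x, x ∈ I ↔ x ∈ U ∧ g x ∈ S := by
      intro x
      rw [← h4, mem_filter]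
    rw [mem_product, Fintype.mem_piFinset, mem_FF]
    refine ⟨?_, ?_, ?_, ?_⟩
    · intro x
      by_cases hx : x ∈ I
      · simp only [if_pos hx]
        exact ((hI x).mp hx).2
      · simp only [if_neg hx]
        exact mem_singleton_self x
    · intro x hx
      simp only [if_neg hx]
    · intro x hx
      simp only [if_pos hx]
      rw [mem_sdiff] at hx
      rcases mem_union.mp (h2 x hx.1) with h | h
      · by_cases hgI : g x ∈ I
        · exact mem_union_right _ hgI
        · exact mem_union_left _ (mem_sdiff.mpr ⟨h, hgI⟩)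
      · exact absurd ((hI x).mpr ⟨hx.1, h⟩) hx.2
    · intro x hx
      rw [mem_sdiff] at hx
      obtain ⟨k, hk⟩ := h3 x hx.1
      exact h97_reach_fwd hd h2 hI k x hx.1 hk
  · intro p hp
    rw [mem_product, Fintype.mem_piFinset, mem_FF] at hp
    obtain ⟨hf, h1, h2, h3⟩ := hp
    have hf' : ∀ x ∈ I, p.1 x ∈ S := by
      intro x hx
      have := hf x
      rwa [if_pos hx] at this
    rw [mem_filter, mem_FF]
    have hval : ∀ x ∈ U \ I, p.2 x ∈ U := by
      intro x hx
      rcases mem_union.mp (h2 x hx) with h | h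
      · exact (mem_sdiff.mp h).1
      · exact hIU h
    refine ⟨⟨?_, ?_, ?_⟩, ?_⟩
    · intro x hx
      have hxI : x ∉ I := fun h => hx (hIU h)
      simp only [if_neg hxI]
      exact h1 x (fun h => hx (mem_sdiff.mp h).1)
    · intro x hx
      by_cases hxI : x ∈ I
      · simp only [if_pos hxI]
        exact mem_union_right _ (hf' x hxI)
      · simp only [if_neg hxI]
        exact mem_union_left _ (hval x (mem_sdiff.mpr ⟨hx, hxI⟩))
    · intro x hx
      by_cases hxI : x ∈ I
      · exact h97_reach_bwd hf' h2 hIU 0 x hx hxI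
      · obtain ⟨k, hk⟩ := h3 x (mem_sdiff.mpr ⟨hx, hxI⟩)
        exact h97_reach_bwd hf' h2 hIU k x hx hk
    · ext x
      rw [mem_filter]
      constructor
      · rintro ⟨hx, hgx⟩
        by_contra hxI
        simp only [if_neg hxI] at hgx
        exact disjoint_left.mp hd (hval x (mem_sdiff.mpr ⟨hx, hxI⟩)) hgx
      · intro hx
        refine ⟨hIU hx, ?_⟩
        simp only [if_pos hx]
        exact hf' x hx
  · intro g hg
    rw [mem_filter, mem_FF] at hg
    obtain ⟨⟨h1, h2, h3⟩, h4⟩ := hg
    funext x
    by_cases hxI : x ∈ I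
    · simp only [if_pos hxI]
    · simp only [if_neg hxI]
      by_cases hxU : x ∈ U
      · rw [if_pos (mem_sdiff.mpr ⟨hxU, hxI⟩)]
      · rw [if_neg (fun h => hxU (mem_sdiff.mp h).1), h1 x hxU]
  · intro p hp
    rw [mem_product, Fintype.mem_piFinset, mem_FF] at hp
    obtain ⟨hf, h1, h2, h3⟩ := hp
    refine Prod.ext ?_ ?_
    · funext x
      by_cases hxI : x ∈ I
      · simp only [if_pos hxI]
      · simp only [if_neg hxI]
        have := hf x
        rw [if_neg hxI, mem_singleton] at this
        exact this.symm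
    · funext x
      by_cases hx : x ∈ U \ I
      · simp only [if_pos hx]
        rw [if_neg (mem_sdiff.mp hx).2]
      · simp only [if_neg hx]
        exact (h1 x hx).symm

theorem h97_card_FF_sum (U S : Finset α) (hd : Disjoint U S) :
    (FF U S).card = ∑ I ∈ U.powerset, S.card ^ I.card * (FF (U \ I) I).card := by
  rw [card_eq_sum_card_fiberwise (f := fun g : α → α => U.filter fun x => g x ∈ S)
    (t := U.powerset)]
  · refine Finset.sum_congr rfl fun I hI => ?_
    exact h97_card_fiber U S I hd (mem_powerset.mp hI)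
  · intro g _
    exact mem_coe.mpr (mem_powerset.mpr (filter_subset _ _))

theorem h97_binom (v s : ℕ) :
    ∑ m ∈ range (v + 1 + 1), (v + 1).choose m * (s ^ m * (m * (v + 1) ^ (v + 1 - m))) =
      (v + 1) * (s * (v + 1 + s) ^ v) := by
  rw [Finset.sum_range_succ']
  simp only [zero_mul, mul_zero, add_zero]
  rw [add_comm (v + 1) s, add_pow, Finset.mul_sum, Finset.mul_sum]
  refine Finset.sum_congr rfl fun j hj => ?_
  have h := Nat.add_one_mul_choose_eq v j
  have h2 : v + 1 - (j + 1) = v - j := by omega
  rw [h2]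
  have h3 : (v + 1).choose (j + 1) * (j + 1) = (v + 1) * v.choose j := h.symm
  calc (v + 1).choose (j + 1) * (s ^ (j + 1) * ((j + 1) * (v + 1) ^ (v - j)))
      = ((v + 1).choose (j + 1) * (j + 1)) * (s ^ (j + 1) * (v + 1) ^ (v - j)) := by ring
    _ = ((v + 1) * v.choose j) * (s ^ (j + 1) * (v + 1) ^ (v - j)) := by rw [h3]
    _ = (v + 1) * (s * (s ^ j * (v + 1) ^ (v - j) * v.choose j)) := by rw [pow_succ]; ring

theorem card_FF (U S : Finset α) (hd : Disjoint U S) (hU : U.Nonempty) :
    (FF U S).card = S.card * (U.card + S.card) ^ (U.card - 1) := by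
  induction hn : U.card using Nat.strong_induction_on generalizing U S with
  | _ n ih =>
    have hpos : 0 < n := hn ▸ card_pos.mpr hU
    obtain ⟨v, rfl⟩ : ∃ v, n = v + 1 := ⟨n - 1, by omega⟩
    refine Nat.eq_of_mul_eq_mul_left (show 0 < v + 1 by omega) ?_
    rw [h97_card_FF_sum U S hd, Finset.mul_sum]
    have key : ∀ I ∈ U.powerset, (v + 1) * (S.card ^ I.card * (FF (U \ I) I).card) =
        S.card ^ I.card * (I.card * (v + 1) ^ (v + 1 - I.card)) := by
      intro I hI
      have hIU : I ⊆ U := mem_powerset.mp hI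
      have hc : (v + 1) * (FF (U \ I) I).card = I.card * (v + 1) ^ (v + 1 - I.card) := by
        rcases I.eq_empty_or_nonempty with rfl | hne
        · rw [sdiff_empty, h97_card_FF_none U hU]
          simp
        · by_cases hIeq : I = U
          · subst hIeq
            rw [sdiff_self, Finset.bot_eq_empty, card_FF_empty, hn]
            simp
          · have hss : I ⊂ U := Finset.ssubset_iff_subset_ne.mpr ⟨hIU, hIeq⟩
            have hcard : (U \ I).card = v + 1 - I.card := by
              rw [card_sdiff_of_subset hIU, hn]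
            have hlt : I.card < v + 1 := hn ▸ card_lt_card hss
            have hIpos : 0 < I.card := card_pos.mpr hne
            have hne' : (U \ I).Nonempty := by
              rw [← card_pos, hcard]; omega
            have := ih (v + 1 - I.card) (by omega) (U \ I) I sdiff_disjoint hne' hcard
            rw [this]
            have e1 : v + 1 - I.card + I.card = v + 1 := by omega
            rw [e1]
            have e2 : v + 1 - I.card = (v + 1 - I.card - 1) + 1 := by omega
            conv_rhs => rw [e2, pow_succ]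
            ring
      calc (v + 1) * (S.card ^ I.card * (FF (U \ I) I).card)
          = S.card ^ I.card * ((v + 1) * (FF (U \ I) I).card) := by ring
        _ = _ := by rw [hc]
    rw [Finset.sum_congr rfl key]
    have hsum := Finset.sum_powerset_apply_card
      (fun m : ℕ => S.card ^ m * (m * (v + 1) ^ (v + 1 - m))) (x := U)
    rw [hsum, hn]
    simp only [smul_eq_mul, Nat.add_sub_cancel]
    exact h97_binom v S.card

end Pool.Agent.AA
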