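import Pool.Agent.Helper73.AA.Defs

/-!
# AA-C2: labelled trees and parent functions

Proof in words.  `treeOf g` has the edges `{x, g x}`, `x ≠ r` (`x ≠ g x` since `x` reaches `r`; the root gives no edge).  Connected: every vertex
reaches `r`.  At most `|α| - 1` edges (image of `x ↦ s(x, g x)`, `x ≠ r`), so it is a tree
(`SimpleGraph.isTree_iff_connected_and_card` or the like; or: acyclic since a connected graph has at least `|α| - 1` edges).
Surjective: for a tree `G` let `g x` be the second vertex of the path from `x` to `r` (`g r = r`), or: use distances to `r`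
(`G.dist (g x) r + 1 = G.dist x r`).
Injective: in `treeOf g` the second vertex of the unique path from `x` to `r` is `g x` (the walk `x, g x, g (g x), ...` has no
repetition), so `g` is determined by `treeOf g`; or: count, or: `dist`.
Degrees: the neighbours of `v` are the children `x ≠ r` with `g x = v` and (if `v ≠ r`) `g v`.
-/

set_option autoImplicit false

namespace Pool.Agent.AA

open Finset

variable {α : Type} [Fintype α] [DecidableEq α]

omit [Fintype α] [DecidableEq α] in
private theorem h27_adj {g : α → α} {x y : α} :
    (treeOf g).Adj x y ↔ x ≠ y ∧ (g x = y ∨ g y = x) := by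
  unfold treeOf
  rw [SimpleGraph.fromRel_adj]

private theorem h27_root {r : α} {g : α → α} (hg : g ∈ FF (univ.erase r) {r}) : g r = r :=
  (mem_FF.1 hg).1 r (by simp)

private theorem h27_reach {r : α} {g : α → α} (hg : g ∈ FF (univ.erase r) {r}) (x : α) :
    ∃ k : ℕ, g^[k] x = r := by
  by_cases hx : x = r
  · exact ⟨0, hx⟩
  · obtain ⟨k, hk⟩ := (mem_FF.1 hg).2.2 x (by simp [hx])
    exact ⟨k, by simpa using hk⟩

/-- a depth function -/
private theorem h27_depth {r : α} {g : α → α} (hg : g ∈ FF (univ.erase r) {r}) :
    ∃ d : α → ℕ, ∀ x, x ≠ r → d (g x) < d x := by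
  classical
  refine ⟨fun x => Nat.find (h27_reach hg x), fun x hx => ?_⟩
  have h1 := Nat.find_spec (h27_reach hg x)
  set k := Nat.find (h27_reach hg x) with hk
  have hk0 : k ≠ 0 := by
    intro h0
    rw [h0] at h1
    exact hx h1
  obtain ⟨j, hj⟩ := Nat.exists_eq_succ_of_ne_zero hk0
  have h2 : g^[j] (g x) = r := by
    rw [hj] at h1
    simpa [Function.iterate_succ_apply] using h1
  have h3 : Nat.find (h27_reach hg (g x)) ≤ j := Nat.find_min' _ h2
  show Nat.find (h27_reach hg (g x)) < k
  omega

private theorem h27_ne {r : α} {g : α → α} (hg : g ∈ FF (univ.erase r) {r}) {x : α}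
    (hx : x ≠ r) : g x ≠ x := by
  obtain ⟨d, hd⟩ := h27_depth hg
  intro h
  have := hd x hx
  rw [h] at this
  exact lt_irrefl _ this

theorem treeOf_isTree (r : α) {g : α → α} (hg : g ∈ FF (univ.erase r) {r}) :
    (treeOf g).IsTree := by
  classical
  obtain ⟨d, hd⟩ := h27_depth hg
  have hreach : ∀ n : ℕ, ∀ x, d x ≤ n → (treeOf g).Reachable x r := by
    intro n
    induction n with
    | zero =>
      intro x hx
      by_cases hxr : x = r
      · rw [hxr]
      · have := hd x hxr
        omega
    | succ n ih =>
      intro x hx
      by_cases hxr : x = r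
      · rw [hxr]
      · have h1 := hd x hxr
        have h2 : (treeOf g).Adj x (g x) := h27_adj.2 ⟨(h27_ne hg hxr).symm, Or.inl rfl⟩
        exact h2.reachable.trans (ih (g x) (by omega))
  have hconn : (treeOf g).Connected := by
    have : Nonempty α := ⟨r⟩
    refine ⟨fun x y => (hreach (d x) x le_rfl).trans (hreach (d y) y le_rfl).symm⟩
  rw [SimpleGraph.isTree_iff_connected_and_card]
  refine ⟨hconn, le_antisymm ?_ hconn.card_vert_le_card_edgeSet_add_one⟩
  have hsub : (treeOf g).edgeSet ⊆
      ((univ.erase r).image (fun x => s(x, g x)) : Finset (Sym2 α)) := by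
    intro e
    induction e using Sym2.ind with
    | _ x y =>
      intro he
      rw [SimpleGraph.mem_edgeSet, h27_adj] at he
      simp only [coe_image, Set.mem_image, mem_coe, mem_erase, mem_univ, and_true]
      rcases he with ⟨hxy, h | h⟩
      · refine ⟨x, ?_, by rw [h]⟩
        rintro rfl
        rw [h27_root hg] at h
        exact hxy h
      · refine ⟨y, ?_, by rw [h]; exact Sym2.eq_swap⟩
        rintro rfl
        rw [h27_root hg] at h
        exact hxy h.symm
  have h1 : Nat.card (treeOf g).edgeSet ≤ ((univ.erase r).image (fun x => s(x, g x))).card := by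
    have := Set.ncard_le_ncard hsub (Finset.finite_toSet _)
    rw [Set.ncard_coe_finset] at this
    exact this
  have h2 : ((univ.erase r).image (fun x => s(x, g x))).card ≤ (univ.erase r).card :=
    card_image_le
  have h3 : (univ.erase r).card + 1 = Fintype.card α := by
    rw [card_erase_of_mem (mem_univ r), card_univ]
    have : 0 < Fintype.card α := Fintype.card_pos_iff.2 ⟨r⟩
    omega
  rw [Nat.card_eq_fintype_card (α := α)]
  omega

theorem treeOf_injOn (r : α) :
    Set.InjOn treeOf (FF (univ.erase r) {r} : Set (α → α)) := by
  intro g hg g' hg' heq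
  have hg : g ∈ FF (univ.erase r) {r} := by exact_mod_cast hg
  have hg' : g' ∈ FF (univ.erase r) {r} := by exact_mod_cast hg'
  obtain ⟨d, hd⟩ := h27_depth hg
  have hedge : ∀ x, x ≠ r → g' x = g x ∨ g' (g x) = x := by
    intro x hx
    have h2 : (treeOf g).Adj x (g x) := h27_adj.2 ⟨(h27_ne hg hx).symm, Or.inl rfl⟩
    rw [heq, h27_adj] at h2
    exact h2.2
  have key : ∀ n : ℕ, ∀ x, d x ≤ n → x ≠ r → g' (g x) ≠ x := by
    intro n
    induction n with
    | zero =>
      intro x hx hxr
      have := hd x hxr
      omega
    | succ n ih =>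
      intro x hx hxr h
      have h1 := hd x hxr
      have hy : g x ≠ r := by
        intro hy
        rw [hy, h27_root hg'] at h
        exact hxr h.symm
      have h2 := hd (g x) hy
      rcases hedge (g x) hy with h3 | h3
      · rw [h3] at h
        rw [h] at h2
        omega
      · exact ih (g x) (by omega) hy h3
  funext x
  by_cases hx : x = r
  · rw [hx, h27_root hg, h27_root hg']
  · rcases hedge x hx with h | h
    · exact h.symm
    · exact absurd h (key (d x) x le_rfl hx)

theorem treeOf_surj (r : α) (G : SimpleGraph α) (hG : G.IsTree) :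
    ∃ g ∈ FF (univ.erase r) {r}, treeOf g = G := by
  classical
  have hconn := hG.1
  have hstep : ∀ x, x ≠ r → ∃ y, G.Adj x y ∧ G.dist y r < G.dist x r := by
    intro x hx
    obtain ⟨w, hw⟩ := (hconn x r).exists_walk_length_eq_dist
    cases w with
    | nil => exact absurd rfl hx
    | @cons _ y _ h p =>
      refine ⟨y, h, ?_⟩
      have h1 : G.dist y r ≤ p.length := SimpleGraph.dist_le p
      rw [SimpleGraph.Walk.length_cons] at hw
      omega
  choose! f hf1 hf2 using hstep
  set g : α → α := fun x => if x = r then r else f x with hgdef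
  have hgr : g r = r := by simp [hgdef]
  have hgx : ∀ x, x ≠ r → g x = f x := fun x hx => by simp [hgdef, hx]
  have hg : g ∈ FF (univ.erase r) {r} := by
    rw [mem_FF]
    refine ⟨fun x hx => ?_, fun x _ => ?_, fun x _ => ?_⟩
    · have : x = r := by simpa using hx
      rw [this, hgr]
    · by_cases h : g x = r
      · simp [h]
      · simp
    · have : ∀ n : ℕ, ∀ x, G.dist x r ≤ n → ∃ k : ℕ, g^[k] x = r := by
        intro n
        induction n with
        | zero =>
          intro x hx
          by_cases hxr : x = r
          · exact ⟨0, hxr⟩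
          · have := hf2 x hxr
            omega
        | succ n ih =>
          intro x hx
          by_cases hxr : x = r
          · exact ⟨0, hxr⟩
          · have h1 := hf2 x hxr
            obtain ⟨k, hk⟩ := ih (g x) (by rw [hgx x hxr]; omega)
            exact ⟨k + 1, by rw [Function.iterate_succ_apply]; exact hk⟩
      obtain ⟨k, hk⟩ := this _ x le_rfl
      exact ⟨k, by simpa using hk⟩
  refine ⟨g, hg, ?_⟩
  have hle : treeOf g ≤ G := by
    intro x y hxy
    rw [h27_adj] at hxy
    rcases hxy with ⟨hne, h | h⟩
    · have hx : x ≠ r := by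
        rintro rfl
        rw [hgr] at h
        exact hne h
      rw [← h, hgx x hx]
      exact hf1 x hx
    · have hy : y ≠ r := by
        rintro rfl
        rw [hgr] at h
        exact hne h.symm
      rw [← h, hgx y hy]
      exact (hf1 y hy).symm
  have h1 := (SimpleGraph.isTree_iff_connected_and_card.1 (treeOf_isTree r hg)).2
  have h2 := (SimpleGraph.isTree_iff_connected_and_card.1 hG).2
  have hsub : (treeOf g).edgeSet ⊆ G.edgeSet := SimpleGraph.edgeSet_mono hle
  have hfin : G.edgeSet.Finite := Set.toFinite _
  have h3 : (treeOf g).edgeSet = G.edgeSet := by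
    refine Set.eq_of_subset_of_ncard_le hsub ?_ hfin
    have e1 : (treeOf g).edgeSet.ncard = Nat.card (treeOf g).edgeSet := rfl
    have e2 : G.edgeSet.ncard = Nat.card G.edgeSet := rfl
    rw [e1, e2]
    omega
  exact SimpleGraph.edgeSet_inj.1 h3

theorem degree_le (r : α) {g : α → α} (hg : g ∈ FF (univ.erase r) {r})
    [(treeOf g).LocallyFinite] (v : α) : (treeOf g).degree v ≤ ch r g v + 1 := by
  classical
  have hsub : (treeOf g).neighborFinset v ⊆
      insert (g v) (univ.filter fun x => x ≠ r ∧ g x = v) := by
    intro y hy
    rw [SimpleGraph.mem_neighborFinset, h27_adj] at hy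
    rcases hy with ⟨hne, h | h⟩
    · rw [← h]
      exact mem_insert_self _ _
    · refine mem_insert_of_mem ?_
      rw [mem_filter]
      refine ⟨mem_univ _, ?_, h⟩
      rintro rfl
      rw [h27_root hg] at h
      exact hne h.symm
  rw [← SimpleGraph.card_neighborFinset_eq_degree]
  refine (card_le_card hsub).trans ((card_insert_le _ _).trans ?_)
  unfold ch
  exact le_rfl

theorem degree_pend (r : α) {g : α → α} (hg : g ∈ FF (univ.erase r) {r})
    [(treeOf g).LocallyFinite] {u : α} (hu : u ∈ PN r g) :
    (treeOf g).degree u = 1 ∧ ∃ w, (treeOf g).Adj u w ∧ (treeOf g).degree w = 2 := by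
  classical
  obtain ⟨hur, hgu, hch, honly⟩ := mem_PN.1 hu
  have hroot := h27_root hg
  have hadj : (treeOf g).Adj u (g u) := h27_adj.2 ⟨(h27_ne hg hur).symm, Or.inl rfl⟩
  refine ⟨?_, g u, hadj, ?_⟩
  · have : (treeOf g).neighborFinset u = {g u} := by
      ext y
      rw [SimpleGraph.mem_neighborFinset, mem_singleton]
      constructor
      · intro h
        rw [h27_adj] at h
        rcases h with ⟨hne, h | h⟩
        · exact h.symm
        · exfalso
          by_cases hy : y = r
          · rw [hy, hroot] at h
            exact hur h.symm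
          · exact hch y hy h
      · rintro rfl
        exact hadj
    rw [← SimpleGraph.card_neighborFinset_eq_degree, this, card_singleton]
  · have hne : g (g u) ≠ u := hch (g u) hgu
    have : (treeOf g).neighborFinset (g u) = {g (g u), u} := by
      ext y
      rw [SimpleGraph.mem_neighborFinset, mem_insert, mem_singleton]
      constructor
      · intro h
        rw [h27_adj] at h
        rcases h with ⟨hne', h | h⟩
        · exact Or.inl h.symm
        · right
          by_cases hy : y = r
          · rw [hy, hroot] at h
            exact absurd h.symm hgu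
          · exact honly y hy h
      · rintro (rfl | rfl)
        · exact h27_adj.2 ⟨(h27_ne hg hgu).symm, Or.inl rfl⟩
        · exact hadj.symm
    rw [← SimpleGraph.card_neighborFinset_eq_degree, this, card_pair hne]

end Pool.Agent.AA
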