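import Pool.Agent.Helper73.AA.C1

/-!
# AA-C4: first moment of the number of pendant paths

Proof in words (`n = m + 1`).  Count the pairs `(g, u)` with `g ∈ FF (univ.erase 0) {0}`, `u ∈ PN 0 g`.  Let `v = g u`; `0, u, v` are distinct
(`v ≠ u` because `u` has no child).  No `x ∉ {u, v}` is mapped into `{u, v}` and `g v ∉ {u, v}` (`g v = v` is impossible since `v` reaches `0`),
so `g` restricted to the other vertices is an element of `FF (univ \ {0,u,v}) {0}` and `g v` is an arbitrary vertex different from `u, v`.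
Conversely all these data give such a pair.  There are `m (m-1)` pairs `(u, v)`, `m - 1` values `g v` and, by `card_FF`,
`(m-1)^(m-3)` functions on the rest (`card_FF_empty` if `m = 2`), in total `m (m-1)^(m-1)`.
Only the inequality `≥` is used later (for `m` large).
-/

set_option autoImplicit false

namespace Pool.Agent.AA

open Finset

private theorem h24_iter {α : Type} {g h : α → α} {T : α → Prop} (hT : ∀ x, T x → T (g x))
    (hgh : ∀ x, T x → h x = g x) (k : ℕ) : ∀ x, T x → h^[k] x = g^[k] x := by
  induction k with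
  | zero => intro x _; rfl
  | succ k ih =>
    intro x hx
    rw [Function.iterate_succ_apply, Function.iterate_succ_apply, hgh x hx]
    exact ih (g x) (hT x hx)

private theorem h24_fiber (m : ℕ) (u v : Fin (m + 1)) (hu : u ≠ 0) (hv : v ≠ 0) (huv : u ≠ v) :
    ((FF (univ.erase (0 : Fin (m + 1))) {0}).filter fun g => u ∈ PN 0 g ∧ g u = v).card =
      ((univ : Finset (Fin (m + 1))) \ {u, v}).card *
        (FF ((univ : Finset (Fin (m + 1))) \ {0, u, v}) {0}).card := by
  obtain ⟨R, hR⟩ : ∃ R : Finset (Fin (m + 1)), R = univ \ {0, u, v} := ⟨_, rfl⟩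
  have memR : ∀ x, x ∈ R ↔ x ≠ 0 ∧ x ≠ u ∧ x ≠ v := by
    intro x
    rw [hR]
    simp only [mem_sdiff, mem_univ, mem_insert, mem_singleton, true_and, not_or]
  rw [← hR, ← card_product]
  refine card_bij'
    (fun g _ => (g v, (fun x => if x ∈ R then g x else x)))
    (fun p _ => fun x => if x = u then v else if x = v then p.1 else p.2 x) ?_ ?_ ?_ ?_
  · intro g hg
    rw [mem_filter, mem_FF, mem_PN] at hg
    obtain ⟨⟨g1, -, g3⟩, ⟨p1, p2, p3, p4⟩, guv⟩ := hg
    have g0 : g 0 = 0 := g1 0 (by simp)
    rw [mem_product, mem_FF]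
    refine ⟨?_, ?_, ?_, ?_⟩
    · simp only [mem_sdiff, mem_univ, mem_insert, mem_singleton, true_and, not_or]
      exact ⟨p3 v hv, fun h => huv (p4 v hv (by rw [h, guv])).symm⟩
    · intro x hx
      simp only [if_neg hx]
    · intro x hx
      simp only [if_pos hx]
      rw [mem_union, mem_singleton, memR]
      rw [memR] at hx
      by_cases h0 : g x = 0
      · exact Or.inr h0
      · exact Or.inl ⟨h0, p3 x hx.1, fun h => hx.2.1 (p4 x hx.1 (by rw [h, guv]))⟩
    · intro x hx
      have hx' := (memR x).mp hx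
      obtain ⟨k, hk⟩ := g3 x (mem_erase.mpr ⟨hx'.1, mem_univ _⟩)
      refine ⟨k, ?_⟩
      rw [h24_iter (g := g) (T := fun x => x ∈ R ∨ x = 0) ?_ ?_ k x (Or.inl hx)]
      · exact hk
      · intro y hy
        rcases hy with hy | hy
        · rw [memR] at hy
          by_cases h0 : g y = 0
          · exact Or.inr h0
          · exact Or.inl ((memR _).mpr
              ⟨h0, p3 y hy.1, fun h => hy.2.1 (p4 y hy.1 (by rw [h, guv]))⟩)
        · subst hy
          exact Or.inr g0
      · intro y hy
        rcases hy with hy | hy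
        · simp only [if_pos hy]
        · subst hy
          have : (0 : Fin (m + 1)) ∉ R := fun h => ((memR 0).mp h).1 rfl
          simp only [if_neg this]
          exact g0.symm
  · intro p hp
    rw [mem_product, mem_FF] at hp
    obtain ⟨hw, h1, h2, h3⟩ := hp
    simp only [mem_sdiff, mem_univ, mem_insert, mem_singleton, true_and, not_or] at hw
    have h0R : (0 : Fin (m + 1)) ∉ R := fun h => ((memR 0).mp h).1 rfl
    have hval : ∀ x ∈ R, p.2 x ≠ u ∧ p.2 x ≠ v := by
      intro x hx
      rcases mem_union.mp (h2 x hx) with h | h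
      · exact ((memR _).mp h).2
      · rw [mem_singleton] at h
        rw [h]
        exact ⟨hu.symm, hv.symm⟩
    have hgR : ∀ x, (x ∈ R ∨ x = 0) →
        (if x = u then v else if x = v then p.1 else p.2 x) = p.2 x := by
      intro x hx
      rcases hx with hx | hx
      · rw [memR] at hx
        rw [if_neg hx.2.1, if_neg hx.2.2]
      · subst hx
        rw [if_neg hu.symm, if_neg hv.symm]
    have hcl : ∀ x, (x ∈ R ∨ x = 0) → (p.2 x ∈ R ∨ p.2 x = 0) := by
      intro x hx
      rcases hx with hx | hx
      · rcases mem_union.mp (h2 x hx) with h | h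
        · exact Or.inl h
        · exact Or.inr (mem_singleton.mp h)
      · subst hx
        exact Or.inr (h1 0 h0R)
    have reachR : ∀ x, (x ∈ R ∨ x = 0) → ∃ k : ℕ,
        (fun x => if x = u then v else if x = v then p.1 else p.2 x)^[k] x ∈
          ({0} : Finset (Fin (m + 1))) := by
      intro x hx
      rcases hx with hx | hx
      · obtain ⟨k, hk⟩ := h3 x hx
        refine ⟨k, ?_⟩
        rw [h24_iter (g := p.2) (T := fun x => x ∈ R ∨ x = 0) hcl hgR k x (Or.inl hx)]
        exact hk
      · exact ⟨0, by simp [hx]⟩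
    have hwR : p.1 ∈ R ∨ p.1 = 0 := by
      by_cases h : p.1 = 0
      · exact Or.inr h
      · exact Or.inl ((memR _).mpr ⟨h, hw.1, hw.2⟩)
    rw [mem_filter, mem_FF, mem_PN]
    refine ⟨⟨?_, ?_, ?_⟩, ⟨hu, ?_, ?_, ?_⟩, ?_⟩
    · intro x hx
      have hx0 : x = 0 := by
        by_contra h
        exact hx (mem_erase.mpr ⟨h, mem_univ _⟩)
      subst hx0
      simp only [if_neg hu.symm, if_neg hv.symm]
      exact h1 0 h0R
    · intro x _
      rw [mem_union, mem_singleton, mem_erase]
      by_cases h : (if x = u then v else if x = v then p.1 else p.2 x) = 0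
      · exact Or.inr h
      · exact Or.inl ⟨h, mem_univ _⟩
    · have hvk : ∃ k : ℕ, (fun x => if x = u then v else if x = v then p.1 else p.2 x)^[k] v ∈
          ({0} : Finset (Fin (m + 1))) := by
        obtain ⟨k, hk⟩ := reachR p.1 hwR
        refine ⟨k + 1, ?_⟩
        rw [Function.iterate_succ_apply]
        simp only [if_neg huv.symm, if_true]
        exact hk
      intro x hx
      by_cases hxu : x = u
      · subst hxu
        obtain ⟨k, hk⟩ := hvk
        refine ⟨k + 1, ?_⟩
        rw [Function.iterate_succ_apply]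
        simp only [if_true]
        exact hk
      · by_cases hxv : x = v
        · subst hxv
          exact hvk
        · exact reachR x (Or.inl ((memR x).mpr ⟨(mem_erase.mp hx).1, hxu, hxv⟩))
    · simp only [if_true]
      exact hv
    · intro x hx
      by_cases hxu : x = u
      · rw [if_pos hxu]
        exact huv.symm
      · by_cases hxv : x = v
        · rw [if_neg hxu, if_pos hxv]
          exact hw.1
        · rw [if_neg hxu, if_neg hxv]
          exact (hval x ((memR x).mpr ⟨hx, hxu, hxv⟩)).1
    · intro x hx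
      simp only [if_true]
      intro hg
      by_contra hxu
      rw [if_neg hxu] at hg
      by_cases hxv : x = v
      · rw [if_pos hxv] at hg
        exact hw.2 hg
      · rw [if_neg hxv] at hg
        exact (hval x ((memR x).mpr ⟨hx, hxu, hxv⟩)).2 hg
    · simp only [if_true]
  · intro g hg
    rw [mem_filter, mem_FF, mem_PN] at hg
    obtain ⟨⟨g1, -, g3⟩, ⟨p1, p2, p3, p4⟩, guv⟩ := hg
    have g0 : g 0 = 0 := g1 0 (by simp)
    funext x
    by_cases hxu : x = u
    · subst hxu
      rw [if_pos rfl, guv]
    · by_cases hxv : x = v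
      · subst hxv
        rw [if_neg hxu, if_pos rfl]
      · simp only [if_neg hxu, if_neg hxv]
        by_cases hxR : x ∈ R
        · rw [if_pos hxR]
        · rw [if_neg hxR]
          have hx0 : x = 0 := by
            by_contra h
            exact hxR ((memR x).mpr ⟨h, hxu, hxv⟩)
          rw [hx0, g0]
  · intro p hp
    rw [mem_product, mem_FF] at hp
    obtain ⟨hw, h1, h2, h3⟩ := hp
    refine Prod.ext ?_ ?_
    · simp only [if_neg huv.symm, if_true]
    · funext x
      by_cases hx : x ∈ R
      · have hx' := (memR x).mp hx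
        simp only [if_pos hx, if_neg hx'.2.1, if_neg hx'.2.2]
      · simp only [if_neg hx]
        exact (h1 x hx).symm

private theorem h24_sum_eq (m : ℕ) (hm : 3 ≤ m) :
    ∑ g ∈ FF (univ.erase (0 : Fin (m + 1))) {0}, (PN 0 g).card = m * (m - 1) ^ (m - 1) := by
  have h1 : ∀ g ∈ FF (univ.erase (0 : Fin (m + 1))) {0}, (PN 0 g).card =
      ∑ u ∈ univ.erase (0 : Fin (m + 1)), ∑ v ∈ (univ.erase (0 : Fin (m + 1))).erase u,
        if (u ∈ PN 0 g ∧ g u = v) then 1 else 0 := by
    intro g _
    have h2 : PN 0 g = (univ.erase (0 : Fin (m + 1))).filter fun u => u ∈ PN 0 g := by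
      ext u
      rw [mem_filter, mem_erase]
      exact ⟨fun h => ⟨⟨(mem_PN.mp h).1, mem_univ _⟩, h⟩, fun h => h.2⟩
    rw [h2, card_filter, ← h2]
    refine sum_congr rfl fun u hu => ?_
    by_cases hPN : u ∈ PN 0 g
    · rw [if_pos hPN]
      have hgu : g u ∈ (univ.erase (0 : Fin (m + 1))).erase u := by
        have := mem_PN.mp hPN
        exact mem_erase.mpr ⟨this.2.2.1 u this.1, mem_erase.mpr ⟨this.2.1, mem_univ _⟩⟩
      have h3 : ∀ v ∈ (univ.erase (0 : Fin (m + 1))).erase u,
          (if (u ∈ PN 0 g ∧ g u = v) then 1 else 0 : ℕ) = if g u = v then 1 else 0 := by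
        intro v _
        simp only [hPN, true_and]
      rw [sum_congr rfl h3, sum_ite_eq, if_pos hgu]
    · rw [if_neg hPN]
      symm
      refine sum_eq_zero fun v _ => ?_
      rw [if_neg]
      exact fun h => hPN h.1
  rw [sum_congr rfl h1, sum_comm]
  have hcm : (univ.erase (0 : Fin (m + 1))).card = m := by
    rw [card_erase_of_mem (mem_univ _), card_univ, Fintype.card_fin]; simp
  have h4 : ∀ u ∈ univ.erase (0 : Fin (m + 1)),
      (∑ g ∈ FF (univ.erase (0 : Fin (m + 1))) {0}, ∑ v ∈ (univ.erase (0 : Fin (m + 1))).erase u,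
        if (u ∈ PN 0 g ∧ g u = v) then 1 else 0) = (m - 1) * ((m - 1) * (m - 1) ^ (m - 3)) := by
    intro u hu
    rw [sum_comm]
    have h5 : ∀ v ∈ (univ.erase (0 : Fin (m + 1))).erase u,
        (∑ g ∈ FF (univ.erase (0 : Fin (m + 1))) {0},
          if (u ∈ PN 0 g ∧ g u = v) then 1 else 0) = (m - 1) * (m - 1) ^ (m - 3) := by
      intro v hv
      rw [← card_filter]
      have hv' := mem_erase.mp hv
      have hu0 : u ≠ 0 := (mem_erase.mp hu).1
      have hv0 : v ≠ 0 := (mem_erase.mp hv'.2).1
      have huv : u ≠ v := fun h => hv'.1 h.symm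
      rw [h24_fiber m u v hu0 hv0 huv]
      have c1 : ((univ : Finset (Fin (m + 1))) \ {u, v}).card = m - 1 := by
        rw [card_sdiff_of_subset (subset_univ _), card_univ, Fintype.card_fin, card_pair huv]
        omega
      have c2 : ((univ : Finset (Fin (m + 1))) \ {0, u, v}).card = m - 2 := by
        rw [card_sdiff_of_subset (subset_univ _), card_univ, Fintype.card_fin,
          card_insert_of_notMem, card_pair huv]
        · omega
        · rw [mem_insert, mem_singleton, not_or]
          exact ⟨hu0.symm, hv0.symm⟩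
      have hne : ((univ : Finset (Fin (m + 1))) \ {0, u, v}).Nonempty := by
        rw [← card_pos, c2]; omega
      rw [c1, card_FF _ _ ?_ hne, c2, card_singleton]
      · have e1 : m - 2 + 1 = m - 1 := by omega
        have e2 : m - 2 - 1 = m - 3 := by omega
        rw [e1, e2, one_mul]
      · rw [disjoint_singleton_right, mem_sdiff]
        intro h
        exact h.2 (mem_insert_self _ _)
    rw [sum_congr rfl h5, sum_const, card_erase_of_mem hu, hcm, smul_eq_mul]
  rw [sum_congr rfl h4, sum_const, hcm, smul_eq_mul]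
  have e3 : m - 1 = (m - 3) + 1 + 1 := by omega
  congr 1
  conv_rhs => rw [e3, pow_succ, pow_succ, ← e3]
  ring

/-- first moment (the lower bound is what is used) -/
theorem sum_PN (m : ℕ) (hm : 3 ≤ m) :
    m * (m - 1) ^ (m - 1) ≤
      ∑ g ∈ FF (univ.erase (0 : Fin (m + 1))) {0}, (PN 0 g).card := by
  rw [h24_sum_eq m hm]

theorem sum_PN_le (m : ℕ) (hm : 3 ≤ m) :
    ∑ g ∈ FF (univ.erase (0 : Fin (m + 1))) {0}, (PN 0 g).card ≤
      m * (m - 1) ^ (m - 1) := by
  rw [h24_sum_eq m hm]

end Pool.Agent.AA
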