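import Pool.Agent.Helper73.AA.Defs

/-!
# AA-C8: the sum of the squares of the numbers of children of a random tree

Proof in words.  `N = card α`, `F = FF (univ.erase r) {r}`.  `two_card`: `x ≠ y`, both `≠ r`.  For `g ∈ F` let `sub g y = {z : ∃ k, g^[k] z = y}`.  For `g ∈ F` with `g x = g y` and `w ∉ sub g y`
the function `Function.update g y w` is in `F` (the path of `w` to `r` avoids `y`).  The map `(g, w) ↦ update g y w` is injective on these pairs: `w = g' y`, `g = update g' y (g' x)`.
So `∑_{g : g x = g y} (N - |sub g y|) ≤ |F|`, and the same with `x`, `y` exchanged.  `sub g x` and `sub g y` are disjoint (if `g^[i] z = x`, `g^[j] z = y`, `i < j`,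
then `g^[j-i] y = y` because `g x = g y`: a cycle through `y ≠ r`, impossible as `y` reaches the fixed point `r`).  Adding: `#{g : g x = g y} * N ≤ 2 |F|`.
`sum_sq`: `∑_v (ch v)^2` = number of pairs `(x, y)`, `x, y ≠ r`, `g x = g y`; the pairs with `x = y` contribute `N - 1`, the other `(N-1)(N-2)` pairs at most
`2 |F| / N` each.
-/

set_option autoImplicit false

namespace Pool.Agent.AA

open Finset

variable {α : Type} [Fintype α] [DecidableEq α]

private theorem mem_root {r : α} {g : α → α} :
    g ∈ FF (univ.erase r) {r} ↔ g r = r ∧ ∀ x, ∃ k : ℕ, g^[k] x = r := by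
  rw [mem_FF]
  constructor
  · rintro ⟨h1, _, h3⟩
    refine ⟨h1 r (by simp), fun x => ?_⟩
    by_cases hx : x = r
    · exact ⟨0, by simpa using hx⟩
    · obtain ⟨k, hk⟩ := h3 x (by simp [hx])
      exact ⟨k, by simpa using hk⟩
  · rintro ⟨h1, h2⟩
    refine ⟨fun x hx => ?_, fun x _ => ?_, fun x _ => ?_⟩
    · have hx' : x = r := by simpa using hx
      rw [hx', h1]
    · by_cases h : g x = r <;> simp [h]
    · obtain ⟨k, hk⟩ := h2 x
      exact ⟨k, by simpa using hk⟩

omit [Fintype α] in
private theorem iter_update {g : α → α} {y w z : α} (h : ∀ k : ℕ, g^[k] z ≠ y) (k : ℕ) :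
    (Function.update g y w)^[k] z = g^[k] z := by
  induction k with
  | zero => rfl
  | succ k ih =>
    rw [Function.iterate_succ_apply', Function.iterate_succ_apply', ih,
      Function.update_of_ne (h k)]

private theorem update_mem {r : α} {g : α → α} (hg : g ∈ FF (univ.erase r) {r}) {y w : α}
    (hy : y ≠ r) (hw : ∀ k : ℕ, g^[k] w ≠ y) :
    Function.update g y w ∈ FF (univ.erase r) {r} := by
  rw [mem_root] at hg ⊢
  obtain ⟨h1, h2⟩ := hg
  refine ⟨by rw [Function.update_of_ne hy.symm, h1], ?_⟩
  have hwr : ∃ m : ℕ, (Function.update g y w)^[m] w = r := by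
    obtain ⟨k, hk⟩ := h2 w
    exact ⟨k, by rw [iter_update hw, hk]⟩
  have hyr : ∃ m : ℕ, (Function.update g y w)^[m] y = r := by
    obtain ⟨m, hm⟩ := hwr
    exact ⟨m + 1, by rw [Function.iterate_succ_apply, Function.update_self, hm]⟩
  have key : ∀ (k : ℕ) (z : α), g^[k] z = y → ∃ m : ℕ, (Function.update g y w)^[m] z = r := by
    intro k
    induction k with
    | zero =>
      intro z hz
      have : z = y := hz
      rw [this]
      exact hyr
    | succ k ih =>
      intro z hz
      by_cases hzy : z = y
      · rw [hzy]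
        exact hyr
      · rw [Function.iterate_succ_apply] at hz
        obtain ⟨m, hm⟩ := ih (g z) hz
        exact ⟨m + 1, by rw [Function.iterate_succ_apply, Function.update_of_ne hzy, hm]⟩
  intro z
  by_cases hz : ∃ k : ℕ, g^[k] z = y
  · obtain ⟨k, hk⟩ := hz
    exact key k z hk
  · push Not at hz
    obtain ⟨k, hk⟩ := h2 z
    exact ⟨k, by rw [iter_update hz, hk]⟩

private theorem no_cycle {r : α} {g : α → α} (hg : g ∈ FF (univ.erase r) {r}) {y : α}
    (hy : y ≠ r) {d : ℕ} (hd : 0 < d) : g^[d] y ≠ y := by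
  intro h
  rw [mem_root] at hg
  obtain ⟨h1, h2⟩ := hg
  obtain ⟨k, hk⟩ := h2 y
  have hfix : ∀ m : ℕ, g^[m] r = r := fun m => Function.iterate_fixed h1 m
  have hper : ∀ m : ℕ, g^[d * m] y = y := by
    intro m
    rw [Function.iterate_mul]
    exact Function.iterate_fixed h m
  have h3 : g^[d * k] y = r := by
    have hle : k ≤ d * k := Nat.le_mul_of_pos_left k hd
    obtain ⟨c, hc⟩ := Nat.exists_eq_add_of_le hle
    rw [hc, add_comm, Function.iterate_add_apply, hk, hfix]
  exact hy (by rw [← hper k, h3])

private theorem disj_aux {r : α} {g : α → α} (hg : g ∈ FF (univ.erase r) {r}) {x y z : α}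
    (hy : y ≠ r) (hxy : x ≠ y) (hgxy : g x = g y) {i j : ℕ} (hij : i ≤ j)
    (hi : g^[i] z = x) (hj : g^[j] z = y) : False := by
  obtain ⟨d, hd⟩ := Nat.exists_eq_add_of_le hij
  have h1 : g^[d] x = y := by
    rw [← hi, ← Function.iterate_add_apply, add_comm, ← hd, hj]
  cases d with
  | zero => exact hxy h1
  | succ d =>
    rw [Function.iterate_succ_apply, hgxy, ← Function.iterate_succ_apply] at h1
    exact no_cycle hg hy (Nat.succ_pos d) h1

private theorem disj {r : α} {g : α → α} (hg : g ∈ FF (univ.erase r) {r}) {x y : α}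
    (hx : x ≠ r) (hy : y ≠ r) (hxy : x ≠ y) (hgxy : g x = g y) (z : α) :
    (∀ k : ℕ, g^[k] z ≠ y) ∨ (∀ k : ℕ, g^[k] z ≠ x) := by
  by_contra h
  push Not at h
  obtain ⟨⟨j, hj⟩, ⟨i, hi⟩⟩ := h
  rcases le_total i j with hij | hij
  · exact disj_aux hg hy hxy hgxy hij hi hj
  · exact disj_aux hg hx hxy.symm hgxy.symm hij hj hi

open Classical in
private theorem inj_card (r x y : α) (hy : y ≠ r) (hxy : x ≠ y) :
    ((((FF (univ.erase r) {r}).filter fun g : α → α => g x = g y) ×ˢ
      (univ : Finset α)).filter fun p => ∀ k : ℕ, p.1^[k] p.2 ≠ y).card ≤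
      (FF (univ.erase r) {r}).card := by
  refine Finset.card_le_card_of_injOn (fun p => Function.update p.1 y p.2) ?_ ?_
  · intro p hp
    have hp' := Finset.mem_filter.1 (Finset.mem_coe.1 hp)
    obtain ⟨h1, h2⟩ := hp'
    have h3 := (Finset.mem_filter.1 (Finset.mem_product.1 h1).1).1
    exact Finset.mem_coe.2 (update_mem h3 hy h2)
  · intro p hp q hq hpq
    have hp' := Finset.mem_filter.1 (Finset.mem_coe.1 hp)
    have hq' := Finset.mem_filter.1 (Finset.mem_coe.1 hq)
    have h3 := (Finset.mem_filter.1 (Finset.mem_product.1 hp'.1).1).2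
    have h4 := (Finset.mem_filter.1 (Finset.mem_product.1 hq'.1).1).2
    simp only at hpq
    have h5 : p.2 = q.2 := by
      have := congrFun hpq y
      simpa using this
    have h6 : ∀ z, z ≠ y → p.1 z = q.1 z := by
      intro z hz
      have := congrFun hpq z
      rwa [Function.update_of_ne hz, Function.update_of_ne hz] at this
    have h7 : p.1 = q.1 := by
      funext z
      by_cases hz : z = y
      · rw [hz, ← h3, ← h4, h6 x hxy]
      · exact h6 z hz
    exact Prod.ext h7 h5

theorem two_card (r x y : α) (hx : x ≠ r) (hy : y ≠ r) (hxy : x ≠ y) :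
    ((FF (univ.erase r) {r}).filter fun g : α → α => g x = g y).card * Fintype.card α ≤
      2 * (FF (univ.erase r) {r}).card := by
  classical
  set E := (FF (univ.erase r) {r}).filter fun g : α → α => g x = g y with hE
  have h1 := inj_card r x y hy hxy
  have h2 := inj_card r y x hx hxy.symm
  have hE' : ((FF (univ.erase r) {r}).filter fun g : α → α => g y = g x) = E := by
    rw [hE]
    refine Finset.filter_congr fun g _ => ?_
    exact eq_comm
  rw [hE'] at h2
  rw [← hE] at h1
  have h3 : (E ×ˢ (univ : Finset α)) ⊆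
      ((E ×ˢ (univ : Finset α)).filter fun p => ∀ k : ℕ, p.1^[k] p.2 ≠ y) ∪
      ((E ×ˢ (univ : Finset α)).filter fun p => ∀ k : ℕ, p.1^[k] p.2 ≠ x) := by
    intro p hp
    have hp1 := Finset.mem_filter.1 (Finset.mem_product.1 hp).1
    rw [Finset.mem_union, Finset.mem_filter, Finset.mem_filter]
    rcases disj hp1.1 hx hy hxy hp1.2 p.2 with h | h
    · exact Or.inl ⟨hp, h⟩
    · exact Or.inr ⟨hp, h⟩
  have h4 := (Finset.card_le_card h3).trans (Finset.card_union_le _ _)
  rw [Finset.card_product, Finset.card_univ] at h4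
  omega

theorem sum_sq (r : α) :
    ∑ g ∈ FF (univ.erase r) {r}, ∑ v, (ch r g v) ^ 2 ≤
      3 * Fintype.card α * (FF (univ.erase r) {r}).card := by
  classical
  set F := FF (univ.erase r) {r} with hF
  set N := Fintype.card α with hN
  have hNpos : 0 < N := Fintype.card_pos_iff.2 ⟨r⟩
  -- square as a double sum
  have hsq : ∀ g : α → α, ∑ v, (ch r g v) ^ 2 =
      ∑ a ∈ univ.erase r, ∑ b ∈ univ.erase r, if g a = g b then 1 else 0 := by
    intro g
    have h1 : ∀ v, ch r g v = ∑ a ∈ univ.erase r, if g a = v then 1 else 0 := by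
      intro v
      unfold ch
      rw [Finset.card_filter, ← Finset.sum_filter_add_sum_filter_not univ (fun a => a = r)]
      have e1 : ∑ x ∈ univ with x = r, (if x ≠ r ∧ g x = v then 1 else 0) = 0 := by
        refine Finset.sum_eq_zero fun x hx => ?_
        have := (Finset.mem_filter.1 hx).2
        simp [this]
      have e2 : (univ.filter fun a => ¬ a = r) = univ.erase r := by
        ext a
        simp
      rw [e1, e2, zero_add]
      refine Finset.sum_congr rfl fun a ha => ?_
      have : a ≠ r := (Finset.mem_erase.1 ha).1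
      simp [this]
    have h2 : ∀ v, (ch r g v) ^ 2 = ∑ a ∈ univ.erase r, ∑ b ∈ univ.erase r,
        if g a = v ∧ g b = v then 1 else 0 := by
      intro v
      rw [sq, h1 v, Finset.sum_mul_sum]
      refine Finset.sum_congr rfl fun a _ => Finset.sum_congr rfl fun b _ => ?_
      by_cases ha : g a = v <;> by_cases hb : g b = v <;> simp [ha, hb]
    rw [Finset.sum_congr rfl fun v _ => h2 v, Finset.sum_comm]
    refine Finset.sum_congr rfl fun a _ => ?_
    rw [Finset.sum_comm]
    refine Finset.sum_congr rfl fun b _ => ?_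
    rw [Finset.sum_eq_single (g a)]
    · by_cases h : g a = g b <;> simp [h, eq_comm]
    · intro v _ hv
      rw [if_neg]
      rintro ⟨h, _⟩
      exact hv h.symm
    · intro h
      exact absurd (Finset.mem_univ _) h
  have hT : ∑ g ∈ F, ∑ v, (ch r g v) ^ 2 =
      ∑ a ∈ univ.erase r, ∑ b ∈ univ.erase r, (F.filter fun g : α → α => g a = g b).card := by
    rw [Finset.sum_congr rfl fun g _ => hsq g, Finset.sum_comm]
    refine Finset.sum_congr rfl fun a _ => ?_
    rw [Finset.sum_comm]
    refine Finset.sum_congr rfl fun b _ => ?_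
    rw [Finset.card_filter]
  have hpair : ∀ a ∈ univ.erase r, ∀ b ∈ univ.erase r,
      (F.filter fun g : α → α => g a = g b).card * N ≤
        (if a = b then N * F.card else 0) + 2 * F.card := by
    intro a ha b hb
    by_cases hab : a = b
    · rw [if_pos hab]
      have := Finset.card_filter_le F (fun g : α → α => g a = g b)
      have h2 := Nat.mul_le_mul_right N this
      rw [mul_comm F.card N] at h2
      omega
    · rw [if_neg hab, zero_add]
      exact two_card r a b (Finset.mem_erase.1 ha).1 (Finset.mem_erase.1 hb).1 hab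
  have hcard : (univ.erase r).card ≤ N := by
    rw [hN, ← Finset.card_univ]
    exact Finset.card_le_card (Finset.erase_subset _ _)
  have hsum : (∑ g ∈ F, ∑ v, (ch r g v) ^ 2) * N ≤ (3 * N * F.card) * N := by
    rw [hT, Finset.sum_mul]
    calc ∑ a ∈ univ.erase r, (∑ b ∈ univ.erase r,
          (F.filter fun g : α → α => g a = g b).card) * N
        ≤ ∑ a ∈ univ.erase r, (N * F.card + N * (2 * F.card)) := by
          refine Finset.sum_le_sum fun a ha => ?_
          rw [Finset.sum_mul]
          refine (Finset.sum_le_sum fun b hb => hpair a ha b hb).trans ?_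
          rw [Finset.sum_add_distrib, Finset.sum_ite_eq, if_pos ha, Finset.sum_const,
            smul_eq_mul]
          exact Nat.add_le_add_left (Nat.mul_le_mul_right _ hcard) _
      _ = (univ.erase r).card * (3 * N * F.card) := by
          rw [Finset.sum_const, smul_eq_mul]
          ring
      _ ≤ N * (3 * N * F.card) := Nat.mul_le_mul_right _ hcard
      _ = (3 * N * F.card) * N := by ring
  exact Nat.le_of_mul_le_mul_right hsum hNpos

end Pool.Agent.AA
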