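import Pool.Agent.Helper73.AA.C7
import Pool.Agent.Helper73.AA.C8

/-!
# AA-C9: a property of trees with small maximum degree and small tail of the degree sequence holds for almost all trees
-/

set_option autoImplicit false

namespace Pool.Agent.AA

open Finset Filter Topology

theorem lim_sq (M : ℝ) (hM : 0 < M) (m : ℕ) (hm : 1 ≤ m) :
    (((FF (univ.erase (0 : Fin (m + 1))) {0}).filter fun g =>
      M * ((m + 1 : ℕ) : ℝ) < ((∑ v, (ch 0 g v) ^ 2 : ℕ) : ℝ)).card : ℝ) ≤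
        3 / M * (FF (univ.erase (0 : Fin (m + 1))) {0}).card := by
  have h1 := sum_sq (0 : Fin (m + 1))
  set F := FF (univ.erase (0 : Fin (m + 1))) {0} with hF
  have h2 : (∑ g ∈ F, ((∑ v, (ch 0 g v) ^ 2 : ℕ) : ℝ)) ≤ 3 * ((m + 1 : ℕ) : ℝ) * F.card := by
    rw [Fintype.card_fin] at h1
    exact_mod_cast h1
  have h3 : ((F.filter fun g => M * ((m + 1 : ℕ) : ℝ) < ((∑ v, (ch 0 g v) ^ 2 : ℕ) : ℝ)).card : ℝ) *
      (M * ((m + 1 : ℕ) : ℝ)) ≤ ∑ g ∈ F, ((∑ v, (ch 0 g v) ^ 2 : ℕ) : ℝ) := by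
    rw [← nsmul_eq_mul, ← sum_const]
    refine (sum_le_sum fun g hg => (mem_filter.1 hg).2.le).trans ?_
    exact sum_le_sum_of_subset_of_nonneg (filter_subset _ _) fun g _ _ => Nat.cast_nonneg _
  have h4 : (0 : ℝ) < ((m + 1 : ℕ) : ℝ) := by positivity
  have h5 := h3.trans h2
  rw [div_mul_eq_mul_div, le_div_iff₀ hM]
  have h6 : ((F.filter fun g => M * ((m + 1 : ℕ) : ℝ) < ((∑ v, (ch 0 g v) ^ 2 : ℕ) : ℝ)).card : ℝ) *
      M * ((m + 1 : ℕ) : ℝ) ≤ 3 * F.card * ((m + 1 : ℕ) : ℝ) := by linarith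
  exact le_of_mul_le_mul_right h6 h4

open Classical in
/-- If there is `τ > 0` such that for every `D` the property `P` holds for all large trees with all degrees at most `δ n` and sum of the degrees `> D` at most `τ n` (some
`δ = δ(D) > 0`) then it holds for almost all labelled trees. -/
theorem almost_all_tail (P : (n : ℕ) → SimpleGraph (Fin n) → Prop)
    (h : ∃ τ : ℝ, 0 < τ ∧ ∀ D : ℕ, ∃ δ : ℝ, 0 < δ ∧ ∃ n₀ : ℕ, ∀ (n : ℕ) (G : SimpleGraph (Fin n)),
      n₀ ≤ n → G.IsTree → (∀ v, (G.degree v : ℝ) ≤ δ * n) →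
      ((∑ v ∈ univ.filter (fun v => D < G.degree v), G.degree v : ℕ) : ℝ) ≤ τ * n → P n G) :
    Tendsto (fun n : ℕ => ((univ.filter fun G : SimpleGraph (Fin n) => G.IsTree ∧ P n G).card : ℝ) /
      (univ.filter fun G : SimpleGraph (Fin n) => G.IsTree).card) atTop (𝓝 1) := by
  obtain ⟨τ, hτ, hP⟩ := h
  rw [← tendsto_add_atTop_iff_nat 1, Metric.tendsto_atTop]
  intro ε hε
  -- constants
  obtain ⟨M, hM, hMε⟩ : ∃ M : ℝ, 0 < M ∧ 3 / M ≤ ε / 3 := ⟨9 / ε, by positivity, by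
    rw [div_div_eq_mul_div, div_le_iff₀ (by norm_num)]
    nlinarith⟩
  obtain ⟨D, hD⟩ := exists_nat_gt ((2 * M + 2) / τ + 1)
  have hD0 : (0 : ℝ) < D := by
    have : 0 ≤ (2 * M + 2) / τ := by positivity
    linarith
  have hDτ : 2 * M + 2 ≤ τ * D := by
    have : (2 * M + 2) / τ ≤ D := by linarith
    rw [div_le_iff₀ hτ] at this
    linarith
  obtain ⟨δ, hδ, n₀, hP⟩ := hP D
  have h1 := lim_big δ hδ
  rw [Metric.tendsto_atTop] at h1
  obtain ⟨N1, hN1⟩ := h1 (ε / 3) (by positivity)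
  refine ⟨max (n₀ + 1) N1, ?_⟩
  intro m hm
  have hm1 : n₀ + 1 ≤ m := (le_max_left _ _).trans hm
  have hm2 : N1 ≤ m := (le_max_right _ _).trans hm
  have hA : (0 : ℝ) < ((FF (univ.erase (0 : Fin (m + 1))) {0}).card : ℝ) := by
    rw [card_FF]
    · rw [card_singleton, one_mul]
      push_cast
      have : (0 : ℝ) < ((univ.erase (0 : Fin (m + 1))).card : ℝ) + 1 := by positivity
      positivity
    · simp
    · refine ⟨Fin.last m, ?_⟩
      rw [mem_erase]
      refine ⟨?_, mem_univ _⟩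
      intro e
      have := congrArg Fin.val e
      simp at this
      omega
  have e1 : (univ.filter fun G : SimpleGraph (Fin (m + 1)) => G.IsTree).card =
      (FF (univ.erase (0 : Fin (m + 1))) {0}).card := by
    have := card_tree_filter m fun _ => True
    simpa using this
  have h2 := hN1 m hm2
  rw [Real.dist_0_eq_abs] at h2
  have h2' := (le_abs_self _).trans_lt h2
  rw [div_lt_iff₀ hA] at h2'
  have h3 := lim_sq M hM m (by omega)
  have hsub : FF (univ.erase (0 : Fin (m + 1))) {0} ⊆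
      ((FF (univ.erase (0 : Fin (m + 1))) {0}).filter fun g => P (m + 1) (treeOf g)) ∪
      (((FF (univ.erase (0 : Fin (m + 1))) {0}).filter fun g =>
          ∃ v, δ * ((m + 1 : ℕ) : ℝ) < (ch 0 g v : ℝ) + 1) ∪
        ((FF (univ.erase (0 : Fin (m + 1))) {0}).filter fun g =>
          M * ((m + 1 : ℕ) : ℝ) < ((∑ v, (ch 0 g v) ^ 2 : ℕ) : ℝ))) := by
    intro g hg
    by_cases hb : ∃ v, δ * ((m + 1 : ℕ) : ℝ) < (ch 0 g v : ℝ) + 1
    · exact mem_union_right _ (mem_union_left _ (mem_filter.2 ⟨hg, hb⟩))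
    by_cases hf : M * ((m + 1 : ℕ) : ℝ) < ((∑ v, (ch 0 g v) ^ 2 : ℕ) : ℝ)
    · exact mem_union_right _ (mem_union_right _ (mem_filter.2 ⟨hg, hf⟩))
    refine mem_union_left _ (mem_filter.2 ⟨hg, hP (m + 1) _ (by omega) (treeOf_isTree 0 hg) ?_ ?_⟩)
    · intro v
      have h4 : (((treeOf g).degree v : ℕ) : ℝ) ≤ ((ch 0 g v + 1 : ℕ) : ℝ) := by
        exact_mod_cast degree_le 0 hg v
      have h5 : ¬ δ * ((m + 1 : ℕ) : ℝ) < (ch 0 g v : ℝ) + 1 := fun h => hb ⟨v, h⟩
      push_cast at h4 h5 ⊢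
      linarith
    · have h6 : (D : ℝ) * ((∑ v ∈ univ.filter (fun v => D < (treeOf g).degree v),
          (treeOf g).degree v : ℕ) : ℝ) ≤ 2 * ((∑ v, (ch 0 g v) ^ 2 : ℕ) : ℝ) + 2 * ((m + 1 : ℕ) : ℝ) := by
        have h7 : D * ∑ v ∈ univ.filter (fun v => D < (treeOf g).degree v), (treeOf g).degree v ≤
            2 * ∑ v, (ch 0 g v) ^ 2 + 2 * (m + 1) := by
          calc D * ∑ v ∈ univ.filter (fun v => D < (treeOf g).degree v), (treeOf g).degree v
              = ∑ v ∈ univ.filter (fun v => D < (treeOf g).degree v), D * (treeOf g).degree v := mul_sum _ _ _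
            _ ≤ ∑ v ∈ univ.filter (fun v => D < (treeOf g).degree v), (treeOf g).degree v ^ 2 := by
                refine sum_le_sum fun v hv => ?_
                rw [pow_two]
                exact Nat.mul_le_mul_right _ (mem_filter.1 hv).2.le
            _ ≤ ∑ v, (treeOf g).degree v ^ 2 := sum_le_sum_of_subset (filter_subset _ _)
            _ ≤ ∑ v, (2 * (ch 0 g v) ^ 2 + 2) := by
                refine sum_le_sum fun v _ => ?_
                refine (Nat.pow_le_pow_left (degree_le 0 hg v) 2).trans ?_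
                nlinarith [sq_nonneg ((ch 0 g v : ℤ) - 1), Nat.zero_le (ch 0 g v), four_mul_le_sq_add (ch 0 g v : ℤ) 1]
            _ = 2 * ∑ v, (ch 0 g v) ^ 2 + 2 * (m + 1) := by
                rw [sum_add_distrib, ← mul_sum, sum_const, card_univ, Fintype.card_fin, smul_eq_mul, mul_comm (m + 1)]
        exact_mod_cast h7
      rw [not_lt] at hf
      have h8 : (D : ℝ) * ((∑ v ∈ univ.filter (fun v => D < (treeOf g).degree v),
          (treeOf g).degree v : ℕ) : ℝ) ≤ D * (τ * ((m + 1 : ℕ) : ℝ)) := by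
        have h9 : (0 : ℝ) ≤ ((m + 1 : ℕ) : ℝ) := Nat.cast_nonneg _
        have h10 := mul_le_mul_of_nonneg_right hDτ h9
        linarith
      exact le_of_mul_le_mul_left h8 hD0
  have hc := (card_le_card hsub).trans (card_union_le _ _)
  have hc2 := card_union_le ((FF (univ.erase (0 : Fin (m + 1))) {0}).filter fun g =>
          ∃ v, δ * ((m + 1 : ℕ) : ℝ) < (ch 0 g v : ℝ) + 1)
        ((FF (univ.erase (0 : Fin (m + 1))) {0}).filter fun g =>
          M * ((m + 1 : ℕ) : ℝ) < ((∑ v, (ch 0 g v) ^ 2 : ℕ) : ℝ))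
  have hc3 := hc.trans (Nat.add_le_add_left hc2 _)
  have hc4 : ((FF (univ.erase (0 : Fin (m + 1))) {0}).card : ℝ) ≤
      (((FF (univ.erase (0 : Fin (m + 1))) {0}).filter fun g => P (m + 1) (treeOf g)).card : ℝ) +
      ((((FF (univ.erase (0 : Fin (m + 1))) {0}).filter fun g =>
          ∃ v, δ * ((m + 1 : ℕ) : ℝ) < (ch 0 g v : ℝ) + 1).card : ℝ) +
        (((FF (univ.erase (0 : Fin (m + 1))) {0}).filter fun g =>
          M * ((m + 1 : ℕ) : ℝ) < ((∑ v, (ch 0 g v) ^ 2 : ℕ) : ℝ)).card : ℝ)) := by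
    exact_mod_cast hc3
  rw [card_tree_filter m (P (m + 1)), e1, Real.dist_eq, abs_lt]
  have hle : ((((FF (univ.erase (0 : Fin (m + 1))) {0}).filter fun g => P (m + 1) (treeOf g)).card : ℝ)) ≤
      ((FF (univ.erase (0 : Fin (m + 1))) {0}).card : ℝ) := by
    exact_mod_cast card_filter_le _ _
  constructor
  · rw [lt_sub_iff_add_lt, lt_div_iff₀ hA]
    have h4 : 3 / M * ((FF (univ.erase (0 : Fin (m + 1))) {0}).card : ℝ) ≤
        ε / 3 * ((FF (univ.erase (0 : Fin (m + 1))) {0}).card : ℝ) :=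
      mul_le_mul_of_nonneg_right hMε hA.le
    nlinarith
  · rw [sub_lt_iff_lt_add, div_lt_iff₀ hA]
    nlinarith

end Pool.Agent.AA
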