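import Mathlib

/-!
# Project AA: almost all labelled trees (definitions)

Trees on a finite type `α` with a chosen root `r` are parent functions `g : α → α` with `g r = r` such that every vertex reaches `r`.
-/

set_option autoImplicit false

namespace Pool.Agent.AA

open Finset

variable {α : Type} [Fintype α] [DecidableEq α]

open Classical in
/-- functions `g` that fix every point outside `U`, map `U` into `U ∪ S` and for which every point of `U` reaches `S` by iteration:
rooted forests on `U ∪ S` with root set `S` -/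
noncomputable def FF (U S : Finset α) : Finset (α → α) :=
  univ.filter fun g => (∀ x, x ∉ U → g x = x) ∧ (∀ x ∈ U, g x ∈ U ∪ S) ∧
    ∀ x ∈ U, ∃ k : ℕ, g^[k] x ∈ S

/-- the graph of a parent function -/
def treeOf (g : α → α) : SimpleGraph α := SimpleGraph.fromRel fun x y => g x = y

/-- number of children of `v` (root `r`) -/
def ch (r : α) (g : α → α) (v : α) : ℕ := (univ.filter fun x => x ≠ r ∧ g x = v).card

/-- the vertices `u ≠ r` without children whose parent `g u ≠ r` has `u` as its only child -/
def PN (r : α) (g : α → α) : Finset α :=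
  univ.filter fun u => u ≠ r ∧ g u ≠ r ∧ (∀ x, x ≠ r → g x ≠ u) ∧
    ∀ x, x ≠ r → g x = g u → x = u

theorem mem_FF {U S : Finset α} {g : α → α} : g ∈ FF U S ↔
    (∀ x, x ∉ U → g x = x) ∧ (∀ x ∈ U, g x ∈ U ∪ S) ∧ ∀ x ∈ U, ∃ k : ℕ, g^[k] x ∈ S := by
  classical
  unfold FF
  rw [mem_filter]
  simp

theorem mem_PN {r : α} {g : α → α} {u : α} : u ∈ PN r g ↔
    u ≠ r ∧ g u ≠ r ∧ (∀ x, x ≠ r → g x ≠ u) ∧ ∀ x, x ≠ r → g x = g u → x = u := by
  unfold PN
  simp

end Pool.Agent.AA
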